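import Pool.Agent.Zk20.CB.R1
import Pool.Agent.Zk97.CB.PDefs

set_option autoImplicit false

/-! Module Q: the rank of the class group, general form (the first part is the text of `R2`, `R3` with
weaker hypotheses). -/

set_option linter.unusedSectionVars false

namespace Pool.Agent.Zk20.CBQ

open Pool.Agent.Zk20.CB (oI oI_mul oI_top oI_pos oI_zero ideal_eq oz span_ne oz_mul oz_unit oz_pow oz_pos oz_zero assoc_of_oz dvd_of_oz cl cl_of cl_mul cl_span cl_top cl_surj cl_eq prod_ne_bot cl_prod)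

open UniqueFactorizationMonoid

variable {T A : Type} [CommRing T] [IsDedekindDomain T] [CommRing A] [IsDomain A]
  [UniqueFactorizationMonoid A]

/-- the hypotheses -/
structure Hy (θ : A →+* T) (a : A) : Prop where
  inj : Function.Injective θ
  a0 : a ≠ 0
  h1 : ∀ z : T, ∃ (u : T) (k : ℕ) (P : A), IsUnit u ∧ u * θ a ^ k * z = θ P
  h2 : ∀ 𝔭 : Ideal T, 𝔭.IsPrime → 𝔭 ≠ ⊥ → θ a ∉ 𝔭 → ∃ π : A, 𝔭.comap θ = Ideal.span {π}

/-- the primes which contain `θ a` -/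
abbrev VV (θ : A →+* T) (a : A) : Type := {𝔮 : Ideal T // 𝔮.IsPrime ∧ θ a ∈ 𝔮}

variable {θ : A →+* T} {a : A}

namespace Hy

lemma ne (H : Hy θ a) {X : A} (hX : X ≠ 0) : θ X ≠ 0 := by
  intro h
  exact hX (H.inj (h.trans (map_zero θ).symm))

lemma ta (H : Hy θ a) : θ a ≠ 0 := H.ne H.a0

lemma finV (H : Hy θ a) : Finite (VV θ a) := by
  classical
  have h1 : Set.Finite {𝔮 : Ideal T | 𝔮.IsPrime ∧ θ a ∈ 𝔮} := by
    refine ((normalizedFactors (Ideal.span {θ a})).toFinset.finite_toSet).subset ?_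
    intro 𝔮 h𝔮
    rw [Finset.mem_coe, Multiset.mem_toFinset, Ideal.mem_normalizedFactors_iff (span_ne H.ta),
      Ideal.span_singleton_le_iff_mem]
    exact h𝔮
  exact h1.to_subtype

lemma V_ne (H : Hy θ a) (v : VV θ a) : v.1 ≠ ⊥ := by
  intro h
  have := v.2.2
  rw [h, Ideal.mem_bot] at this
  exact H.ta this

/-- primes outside -/
lemma out (H : Hy θ a) {𝔭 : Ideal T} (hp : 𝔭.IsPrime) (h0 : 𝔭 ≠ ⊥) (ha : θ a ∉ 𝔭) :
    ∃ π : A, Irreducible π ∧ 𝔭.comap θ = Ideal.span {π} ∧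
      (∀ π' : A, Irreducible π' → θ π' ∈ 𝔭 → Associated π π') := by
  obtain ⟨π, hπ⟩ := H.h2 𝔭 hp h0 ha
  have hprime : (𝔭.comap θ).IsPrime := hp.comap θ
  have hπ0 : π ≠ 0 := by
    rintro rfl
    obtain ⟨z, hz, hz0⟩ := Submodule.exists_mem_ne_zero_of_ne_bot h0
    obtain ⟨u, k, P, hu, hP⟩ := H.h1 z
    have h3 : P ∈ 𝔭.comap θ := by
      rw [Ideal.mem_comap, ← hP]
      exact 𝔭.mul_mem_left _ hz
    rw [hπ, Ideal.mem_span_singleton, zero_dvd_iff] at h3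
    rw [h3, map_zero] at hP
    exact (mul_ne_zero (mul_ne_zero hu.ne_zero (pow_ne_zero _ H.ta)) hz0) hP
  have hprime' : Prime π := by
    rw [hπ, Ideal.span_singleton_prime hπ0] at hprime
    exact hprime
  refine ⟨π, hprime'.irreducible, hπ, fun π' hπ' hm => ?_⟩
  have h4 : π' ∈ 𝔭.comap θ := hm
  rw [hπ, Ideal.mem_span_singleton] at h4
  exact hprime'.irreducible.associated_of_dvd hπ' h4

lemma mem_of_comap (H : Hy θ a) {𝔭 𝔮 : Ideal T} (hq : 𝔮.IsPrime) (haq : θ a ∉ 𝔮)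
    (h : 𝔭.comap θ ≤ 𝔮.comap θ) : 𝔭 ≤ 𝔮 := by
  intro z hz
  obtain ⟨u, k, P, hu, hP⟩ := H.h1 z
  have h3 : P ∈ 𝔭.comap θ := by
    rw [Ideal.mem_comap, ← hP]
    exact 𝔭.mul_mem_left _ hz
  have h4 : θ P ∈ 𝔮 := h h3
  rw [← hP] at h4
  rcases hq.mem_or_mem h4 with h5 | h5
  · exfalso
    rcases hq.mem_or_mem h5 with h6 | h6
    · exact hq.ne_top (Ideal.eq_top_of_isUnit_mem _ h6 hu)
    · exact haq (hq.mem_of_pow_mem _ h6)
  · exact h5

lemma one (H : Hy θ a) {𝔭 : Ideal T} (hp : 𝔭.IsPrime) (h0 : 𝔭 ≠ ⊥) (ha : θ a ∉ 𝔭) {π : A}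
    (hπ : Irreducible π) (hc : 𝔭.comap θ = Ideal.span {π}) : oz (θ π) 𝔭 = 1 := by
  classical
  have hm : θ π ∈ 𝔭 := by
    have : π ∈ 𝔭.comap θ := by rw [hc]; exact Ideal.mem_span_singleton_self π
    exact this
  have h1 : 0 < oz (θ π) 𝔭 := (oz_pos (H.ne hπ.ne_zero)).2 ⟨hp, hm⟩
  by_contra hne
  have h2 : 2 ≤ oz (θ π) 𝔭 := by omega
  have h3 : Ideal.span {θ π} ≤ 𝔭 ^ 2 := by
    unfold oz oI at h2
    rw [Multiset.le_count_iff_replicate_le] at h2
    have h4 := Multiset.prod_dvd_prod_of_le h2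
    rw [Multiset.prod_replicate, Ideal.prod_normalizedFactors_eq_self (span_ne (H.ne hπ.ne_zero)),
      Ideal.dvd_iff_le] at h4
    exact h4
  obtain ⟨z, hz, hz2⟩ := Ideal.exists_mem_pow_notMem_pow_succ 𝔭 h0 hp.ne_top 1
  rw [pow_one] at hz
  obtain ⟨u, k, P, hu, hP⟩ := H.h1 z
  have h5 : P ∈ 𝔭.comap θ := by
    rw [Ideal.mem_comap, ← hP]
    exact 𝔭.mul_mem_left _ hz
  rw [hc, Ideal.mem_span_singleton] at h5
  obtain ⟨S, rfl⟩ := h5
  have h6 : u * θ a ^ k * z ∈ 𝔭 ^ 2 := by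
    rw [hP, map_mul]
    exact Ideal.mul_mem_right _ _ ((Ideal.span_singleton_le_iff_mem _).1 h3)
  rcases Ideal.IsPrime.mul_mem_pow 𝔭 h6 with h7 | h7
  · rcases hp.mem_or_mem h7 with h8 | h8
    · exact hp.ne_top (Ideal.eq_top_of_isUnit_mem _ h8 hu)
    · exact ha (hp.mem_of_pow_mem _ h8)
  · exact hz2 h7

lemma other (H : Hy θ a) {𝔭 : Ideal T} (hp : 𝔭.IsPrime) (h0 : 𝔭 ≠ ⊥) {π : A}
    (hπ : Irreducible π) (hc : 𝔭.comap θ = Ideal.span {π}) {𝔮 : Ideal T} (hq : 𝔮.IsPrime)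
    (haq : θ a ∉ 𝔮) (hm : θ π ∈ 𝔮) : 𝔮 = 𝔭 := by
  have h1 : 𝔭 ≤ 𝔮 := by
    apply H.mem_of_comap hq haq
    rw [hc, Ideal.span_singleton_le_iff_mem]
    exact hm
  exact ((hp.isMaximal h0).eq_of_le hq.ne_top h1).symm

end Hy

/-- the class map -/
noncomputable def ff (θ : A →+* T) (a : A) [Fintype (VV θ a)] :
    (VV θ a → ℤ) →ₗ[ℤ] Additive (ClassGroup T) :=
  Fintype.linearCombination ℤ (fun v : VV θ a => cl v.1)

lemma ff_apply [Fintype (VV θ a)] (n : VV θ a → ℤ) : ff θ a n = ∑ v, n v • cl v.1 := by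
  unfold ff
  rw [Fintype.linearCombination_apply]

lemma cl_prime_mem (H : Hy θ a) [Fintype (VV θ a)] {𝔭 : Ideal T} (hp : 𝔭.IsPrime) (h0 : 𝔭 ≠ ⊥) :
    cl 𝔭 ∈ LinearMap.range (ff θ a) := by
  classical
  by_cases ha : θ a ∈ 𝔭
  · refine ⟨Pi.single ⟨𝔭, hp, ha⟩ 1, ?_⟩
    rw [ff_apply, Finset.sum_eq_single ⟨𝔭, hp, ha⟩]
    · simp
    · intro w _ hw
      rw [Pi.single_eq_of_ne hw, zero_smul]
    · intro h; exact absurd (Finset.mem_univ _) h
  · obtain ⟨π, hπ, hc, _⟩ := H.out hp h0 ha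
    have hne := span_ne (H.ne hπ.ne_zero)
    have hm : 𝔭 ∈ normalizedFactors (Ideal.span {θ π}) := by
      have h1 := H.one hp h0 ha hπ hc
      unfold oz oI at h1
      rw [← Multiset.count_pos]
      convert Nat.lt_of_lt_of_le Nat.zero_lt_one h1.ge
    set m := (normalizedFactors (Ideal.span {θ π})).erase 𝔭 with hm'
    have h2 : 𝔭 ::ₘ m = normalizedFactors (Ideal.span {θ π}) := Multiset.cons_erase hm
    have h3 : ∀ x ∈ m, ∃ v : VV θ a, v.1 = x := by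
      intro x hx
      have h4 : x ∈ normalizedFactors (Ideal.span {θ π}) := Multiset.mem_of_mem_erase hx
      rw [Ideal.mem_normalizedFactors_iff hne, Ideal.span_singleton_le_iff_mem] at h4
      by_cases hax : θ a ∈ x
      · exact ⟨⟨x, h4.1, hax⟩, rfl⟩
      · exfalso
        have h5 := H.other hp h0 hπ hc h4.1 hax h4.2
        subst h5
        have h6 : 0 < m.count x := Multiset.count_pos.2 hx
        rw [hm', Multiset.count_erase_self] at h6
        have h7 := H.one hp h0 ha hπ hc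
        unfold oz oI at h7
        have h8 : Multiset.count x (normalizedFactors (Ideal.span {θ π})) = 1 := by
          convert h7
        omega
    have h4 := cl_prod (fun v : VV θ a => v.1) Subtype.val_injective (fun v => H.V_ne v) m h3
    have h5 : m.prod ≠ ⊥ := prod_ne_bot fun y hy => by
      obtain ⟨w, hw⟩ := h3 y hy
      exact hw ▸ H.V_ne w
    have h6 : cl 𝔭 + cl m.prod = 0 := by
      rw [← cl_mul h0 h5, ← Multiset.prod_cons, h2, Ideal.prod_normalizedFactors_eq_self hne,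
        cl_span (H.ne hπ.ne_zero)]
    rw [add_eq_zero_iff_eq_neg] at h6
    rw [h6]
    refine Submodule.neg_mem _ ⟨fun v => ((m.count v.1 : ℕ) : ℤ), ?_⟩
    rw [ff_apply, h4]

lemma ff_surj (H : Hy θ a) [Fintype (VV θ a)] : Function.Surjective (ff θ a) := by
  rw [← LinearMap.range_eq_top, Submodule.eq_top_iff']
  intro c
  obtain ⟨I, hI, rfl⟩ := cl_surj c
  have key : ∀ m : Multiset (Ideal T), (∀ x ∈ m, x.IsPrime ∧ x ≠ ⊥) →
      cl m.prod ∈ LinearMap.range (ff θ a) := by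
    intro m
    induction m using Multiset.induction with
    | empty =>
      intro _
      rw [Multiset.prod_zero, Ideal.one_eq_top, cl_top]
      exact Submodule.zero_mem _
    | cons x m ih =>
      intro h
      have h1 := h x (Multiset.mem_cons_self x m)
      have h2 : ∀ y ∈ m, y.IsPrime ∧ y ≠ ⊥ := fun y hy => h y (Multiset.mem_cons_of_mem hy)
      rw [Multiset.prod_cons, cl_mul h1.2 (prod_ne_bot fun y hy => (h2 y hy).2)]
      exact Submodule.add_mem _ (cl_prime_mem H h1.1 h1.2) (ih h2)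
  rw [← Ideal.prod_normalizedFactors_eq_self hI]
  refine key _ fun x hx => ?_
  have h1 := (Ideal.mem_normalizedFactors_iff hI).1 hx
  refine ⟨h1.1, fun h2 => ?_⟩
  rw [h2, le_bot_iff] at h1
  exact hI h1.2

/-- the orders at the primes which contain `θ a` -/
noncomputable def dv (θ : A →+* T) (a X : A) : VV θ a → ℤ := fun v => (oz (θ X) v.1 : ℤ)

/-- the module generated by the divisors of the irreducible elements supported in `a` -/
def LL (θ : A →+* T) (a : A) : Submodule ℤ (VV θ a → ℤ) :=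
  Submodule.span ℤ {n | ∃ π : A, Irreducible π ∧ (∃ k : ℕ, θ π ∣ θ a ^ k) ∧ n = dv θ a π}

lemma dv_mul (H : Hy θ a) {X Y : A} (hX : X ≠ 0) (hY : Y ≠ 0) :
    dv θ a (X * Y) = dv θ a X + dv θ a Y := by
  funext v
  simp only [dv, Pi.add_apply]
  rw [map_mul, oz_mul (H.ne hX) (H.ne hY)]
  push_cast
  rfl

lemma dv_unit {X : A} (hX : IsUnit X) : dv θ a X = 0 := by
  funext v
  simp only [dv, Pi.zero_apply]
  rw [oz_unit (hX.map θ)]
  rfl

lemma dv_pow (H : Hy θ a) {X : A} (hX : X ≠ 0) (k : ℕ) : dv θ a (X ^ k) = (k : ℤ) • dv θ a X := by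
  funext v
  simp only [dv, Pi.smul_apply]
  rw [map_pow, oz_pow (H.ne hX)]
  push_cast
  rfl

lemma dv_assoc (H : Hy θ a) {X Y : A} (hX : X ≠ 0) (h : Associated X Y) :
    dv θ a X = dv θ a Y := by
  obtain ⟨u, rfl⟩ := h
  rw [dv_mul H hX u.ne_zero, dv_unit u.isUnit, add_zero]

lemma mem_L_of (H : Hy θ a) (X : A) :
    X ≠ 0 → (∀ π : A, Irreducible π → π ∣ X → dv θ a π ∈ LL θ a) → dv θ a X ∈ LL θ a := by
  refine induction_on_prime (P := fun X : A => X ≠ 0 →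
    (∀ π : A, Irreducible π → π ∣ X → dv θ a π ∈ LL θ a) → dv θ a X ∈ LL θ a) X ?_ ?_ ?_
  · intro h; exact absurd rfl h
  · intro x hx _ _
    rw [dv_unit hx]
    exact Submodule.zero_mem _
  · intro x p hx hp ih _ h
    rw [dv_mul H hp.ne_zero hx]
    exact Submodule.add_mem _ (h p hp.irreducible (dvd_mul_right _ _))
      (ih hx fun π hπ hd => h π hπ (hd.mul_left p))

lemma dv_a (H : Hy θ a) : dv θ a a ∈ LL θ a :=
  mem_L_of H a H.a0 fun π hπ hd => Submodule.subset_span ⟨π, hπ, ⟨1, by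
    rw [pow_one]; exact map_dvd θ hd⟩, rfl⟩

/-- the same order outside of `θ a` -/
def SameOut (θ : A →+* T) (a : A) (X Y : A) : Prop :=
  ∀ 𝔭 : Ideal T, 𝔭.IsPrime → 𝔭 ≠ ⊥ → θ a ∉ 𝔭 → oz (θ X) 𝔭 = oz (θ Y) 𝔭

lemma half (H : Hy θ a) {X Y : A} (hX : X ≠ 0) (hY : Y ≠ 0) (hXY : IsRelPrime X Y)
    (h : SameOut θ a X Y) : dv θ a X ∈ LL θ a := by
  refine mem_L_of H X hX fun π hπ hd => ?_
  have hin : ∀ 𝔭 : Ideal T, 𝔭.IsPrime → θ π ∈ 𝔭 → θ a ∈ 𝔭 := by
    intro 𝔭 hp hm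
    by_contra ha
    have h0 : 𝔭 ≠ ⊥ := by
      rintro rfl
      rw [Ideal.mem_bot] at hm
      exact H.ne hπ.ne_zero hm
    have h1 : θ X ∈ 𝔭 := by
      obtain ⟨S, rfl⟩ := hd
      rw [map_mul]
      exact Ideal.mul_mem_right _ _ hm
    have h2 : 0 < oz (θ X) 𝔭 := (oz_pos (H.ne hX)).2 ⟨hp, h1⟩
    rw [h 𝔭 hp h0 ha] at h2
    have h3 : θ Y ∈ 𝔭 := ((oz_pos (H.ne hY)).1 h2).2
    obtain ⟨π', _, hc', hass⟩ := H.out hp h0 ha
    have h4 : Y ∈ 𝔭.comap θ := h3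
    rw [hc', Ideal.mem_span_singleton] at h4
    have h5 : π ∣ Y := (hass π hπ hm).symm.dvd.trans h4
    exact hπ.not_isUnit (hXY hd h5)
  have hdvd : ∃ k : ℕ, θ π ∣ θ a ^ k := by
    refine ⟨Multiset.card (normalizedFactors (Ideal.span {θ π})), ?_⟩
    refine dvd_of_oz (H.ne hπ.ne_zero) (pow_ne_zero _ H.ta) fun 𝔮 => ?_
    rw [oz_pow H.ta]
    rcases Nat.eq_zero_or_pos (oz (θ π) 𝔮) with h0 | h0
    · rw [h0]; exact Nat.zero_le _
    · have h1 := (oz_pos (H.ne hπ.ne_zero)).1 h0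
      have h2 : 0 < oz (θ a) 𝔮 := (oz_pos H.ta).2 ⟨h1.1, hin 𝔮 h1.1 h1.2⟩
      have h3 : oz (θ π) 𝔮 ≤ Multiset.card (normalizedFactors (Ideal.span {θ π})) := by
        unfold oz oI
        exact Multiset.count_le_card _ _
      nlinarith
  exact Submodule.subset_span ⟨π, hπ, hdvd, rfl⟩

lemma diff_mem (H : Hy θ a) {X Y : A} (hX : X ≠ 0) (hY : Y ≠ 0) (h : SameOut θ a X Y) :
    dv θ a X - dv θ a Y ∈ LL θ a := by
  obtain ⟨X', Y', c, hrel, hcX, hcY⟩ := exists_reduced_factors X hX Y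
  have hc : c ≠ 0 := by rintro rfl; rw [zero_mul] at hcX; exact hX hcX.symm
  have hX' : X' ≠ 0 := by rintro rfl; rw [mul_zero] at hcX; exact hX hcX.symm
  have hY' : Y' ≠ 0 := by rintro rfl; rw [mul_zero] at hcY; exact hY hcY.symm
  have h1 : SameOut θ a X' Y' := by
    intro 𝔭 hp h0 ha
    have h2 := h 𝔭 hp h0 ha
    rw [← hcX, ← hcY, map_mul, map_mul, oz_mul (H.ne hc) (H.ne hX'),
      oz_mul (H.ne hc) (H.ne hY')] at h2
    omega
  have h2 : SameOut θ a Y' X' := fun 𝔭 hp h0 ha => (h1 𝔭 hp h0 ha).symm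
  rw [← hcX, ← hcY, dv_mul H hc hX', dv_mul H hc hY', add_sub_add_left_eq_sub]
  exact Submodule.sub_mem _ (half H hX' hY' hrel h1) (half H hY' hX' hrel.symm h2)

/-- the multiset with the multiplicities `e` -/
noncomputable def mI [Fintype (VV θ a)] (e : VV θ a → ℕ) : Multiset (Ideal T) :=
  ∑ v, e v • ({v.1} : Multiset (Ideal T))

lemma mem_mI [Fintype (VV θ a)] {e : VV θ a → ℕ} {x : Ideal T} (hx : x ∈ mI e) :
    ∃ v : VV θ a, v.1 = x := by
  unfold mI at hx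
  rw [Multiset.mem_sum] at hx
  obtain ⟨v, _, hv⟩ := hx
  have := Multiset.mem_of_mem_nsmul hv
  rw [Multiset.mem_singleton] at this
  exact ⟨v, this.symm⟩

lemma count_mI [Fintype (VV θ a)] [DecidableEq (Ideal T)] (e : VV θ a → ℕ) (v : VV θ a) :
    (mI e).count v.1 = e v := by
  unfold mI
  rw [Multiset.count_sum', Finset.sum_eq_single v]
  · rw [Multiset.count_nsmul, Multiset.count_singleton_self, mul_one]
  · intro w _ hw
    rw [Multiset.count_nsmul, Multiset.count_singleton, if_neg, mul_zero]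
    intro h
    exact hw (Subtype.ext h.symm)
  · intro h; exact absurd (Finset.mem_univ _) h

lemma nf_mI (H : Hy θ a) [Fintype (VV θ a)] (e : VV θ a → ℕ) :
    normalizedFactors (mI e).prod = mI e := by
  refine normalizedFactors_prod_of_prime fun x hx => ?_
  obtain ⟨v, rfl⟩ := mem_mI hx
  exact Ideal.prime_of_isPrime (H.V_ne v) v.2.1

lemma prod_mI_ne (H : Hy θ a) [Fintype (VV θ a)] (e : VV θ a → ℕ) : (mI e).prod ≠ ⊥ :=
  prod_ne_bot fun y hy => by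
    obtain ⟨w, hw⟩ := mem_mI hy
    exact hw ▸ H.V_ne w

lemma oI_mI (H : Hy θ a) [Fintype (VV θ a)] (e : VV θ a → ℕ) (v : VV θ a) :
    oI (mI e).prod v.1 = e v := by
  classical
  unfold oI
  rw [nf_mI H]
  exact count_mI e v

lemma oI_mI_out (H : Hy θ a) [Fintype (VV θ a)] (e : VV θ a → ℕ) {𝔭 : Ideal T}
    (ha : θ a ∉ 𝔭) : oI (mI e).prod 𝔭 = 0 := by
  classical
  unfold oI
  rw [nf_mI H, Multiset.count_eq_zero]
  intro h
  obtain ⟨v, rfl⟩ := mem_mI h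
  exact ha v.2.2

lemma ff_mI (H : Hy θ a) [Fintype (VV θ a)] (e : VV θ a → ℕ) :
    ff θ a (fun v => (e v : ℤ)) = cl (mI e).prod := by
  classical
  rw [cl_prod (fun v : VV θ a => v.1) Subtype.val_injective (fun v => H.V_ne v) (mI e)
    (fun x hx => mem_mI hx), ff_apply]
  refine Finset.sum_congr rfl fun v _ => ?_
  congr 1
  have := count_mI e v
  have h2 : (Multiset.count v.1 (mI e) : ℕ) = e v := this
  exact_mod_cast h2.symm

lemma ker_le (H : Hy θ a) [Fintype (VV θ a)] {n : VV θ a → ℤ} (hn : ff θ a n = 0) :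
    n ∈ LL θ a := by
  classical
  set e₁ : VV θ a → ℕ := fun v => (n v).toNat with he₁
  set e₂ : VV θ a → ℕ := fun v => (-n v).toNat with he₂
  have hsub : n = (fun v => (e₁ v : ℤ)) - fun v => (e₂ v : ℤ) := by
    funext v
    simp only [Pi.sub_apply, he₁, he₂]
    exact (Int.toNat_sub_toNat_neg (n v)).symm
  have h1 : cl (mI e₁).prod = cl (mI e₂).prod := by
    rw [← ff_mI H, ← ff_mI H]
    have h2 : ff θ a ((fun v => (e₁ v : ℤ)) - fun v => (e₂ v : ℤ)) = 0 := by rw [← hsub]; exact hn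
    rw [map_sub, sub_eq_zero] at h2
    exact h2
  obtain ⟨x, y, hx, hy, hxy⟩ := cl_eq (prod_mI_ne H e₁) (prod_mI_ne H e₂) h1
  obtain ⟨u, k, X, hu, hX⟩ := H.h1 x
  obtain ⟨u', k', Y, hu', hY⟩ := H.h1 y
  have hθX : θ X ≠ 0 := by
    rw [← hX]; exact mul_ne_zero (mul_ne_zero hu.ne_zero (pow_ne_zero _ H.ta)) hx
  have hθY : θ Y ≠ 0 := by
    rw [← hY]; exact mul_ne_zero (mul_ne_zero hu'.ne_zero (pow_ne_zero _ H.ta)) hy
  have hX0 : X ≠ 0 := by rintro rfl; exact hθX (map_zero θ)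
  have hY0 : Y ≠ 0 := by rintro rfl; exact hθY (map_zero θ)
  have oX : ∀ 𝔮, oz (θ X) 𝔮 = k * oz (θ a) 𝔮 + oz x 𝔮 := fun 𝔮 => by
    rw [← hX, oz_mul (mul_ne_zero hu.ne_zero (pow_ne_zero _ H.ta)) hx,
      oz_mul hu.ne_zero (pow_ne_zero _ H.ta), oz_unit hu, oz_pow H.ta, zero_add]
  have oY : ∀ 𝔮, oz (θ Y) 𝔮 = k' * oz (θ a) 𝔮 + oz y 𝔮 := fun 𝔮 => by
    rw [← hY, oz_mul (mul_ne_zero hu'.ne_zero (pow_ne_zero _ H.ta)) hy,
      oz_mul hu'.ne_zero (pow_ne_zero _ H.ta), oz_unit hu', oz_pow H.ta, zero_add]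
  have hsame : SameOut θ a Y X := by
    intro 𝔭 _ _ ha
    have h2 := hxy 𝔭
    rw [oI_mI_out H e₁ ha, oI_mI_out H e₂ ha] at h2
    rw [oX, oY, oz_zero H.ta ha]
    omega
  have h3 := diff_mem H hY0 hX0 hsame
  have h4 : n = (dv θ a Y - dv θ a X) + ((k : ℤ) - k') • dv θ a a := by
    rw [hsub]
    funext v
    have h5 := hxy v.1
    rw [oI_mI H, oI_mI H] at h5
    have h6 := oX v.1
    have h7 := oY v.1
    simp only [Pi.sub_apply, Pi.add_apply, Pi.smul_apply, dv, smul_eq_mul]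
    rw [h6, h7]
    push_cast
    have h8 : (oz x v.1 : ℤ) + e₁ v = oz y v.1 + e₂ v := by exact_mod_cast h5
    linear_combination h8
  rw [h4]
  exact Submodule.add_mem _ h3 (Submodule.smul_mem _ _ (dv_a H))

lemma le_ker (H : Hy θ a) [Fintype (VV θ a)] : LL θ a ≤ LinearMap.ker (ff θ a) := by
  classical
  unfold LL
  rw [Submodule.span_le]
  rintro _ ⟨π, hπ, hd, rfl⟩
  rw [SetLike.mem_coe, LinearMap.mem_ker, ff_apply]
  have hne := span_ne (H.ne hπ.ne_zero)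
  have h3 : ∀ x ∈ normalizedFactors (Ideal.span {θ π}), ∃ v : VV θ a, v.1 = x := by
    intro x hx
    rw [Ideal.mem_normalizedFactors_iff hne, Ideal.span_singleton_le_iff_mem] at hx
    refine ⟨⟨x, hx.1, ?_⟩, rfl⟩
    obtain ⟨k, S, hS⟩ := hd
    have h5 : θ a ^ k ∈ x := by
      rw [hS]
      exact Ideal.mul_mem_right _ _ hx.2
    exact hx.1.mem_of_pow_mem _ h5
  have h4 := cl_prod (fun v : VV θ a => v.1) Subtype.val_injective (fun v => H.V_ne v) _ h3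
  rw [Ideal.prod_normalizedFactors_eq_self hne, cl_span (H.ne hπ.ne_zero)] at h4
  rw [h4]
  rfl

lemma ker_eq (H : Hy θ a) [Fintype (VV θ a)] : LinearMap.ker (ff θ a) = LL θ a :=
  le_antisymm (fun _ hn => ker_le H hn) (le_ker H)



section basis

variable {ι : Type} {b : ι → A}

/-- the module generated by the divisors of the `b i` -/
def MM (θ : A →+* T) (a : A) (b : ι → A) : Submodule ℤ (VV θ a → ℤ) :=
  Submodule.span ℤ (Set.range fun i => dv θ a (b i))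

lemma b_ne (H : Hy θ a) (hb : ∀ i : ι, ∃ k : ℕ, θ (b i) ∣ θ a ^ k) (i : ι) : b i ≠ 0 := by
  intro h
  obtain ⟨k, hk⟩ := hb i
  rw [h, map_zero, zero_dvd_iff] at hk
  exact pow_ne_zero _ H.ta hk

lemma prod_ne (H : Hy θ a) (hb : ∀ i : ι, ∃ k : ℕ, θ (b i) ∣ θ a ^ k) (n : ι →₀ ℕ) :
    (n.prod fun i k => b i ^ k) ≠ 0 :=
  Finset.prod_ne_zero_iff.2 fun i _ => pow_ne_zero _ (b_ne H hb i)

lemma dv_fprod (H : Hy θ a) (hb : ∀ i : ι, ∃ k : ℕ, θ (b i) ∣ θ a ^ k) (n : ι →₀ ℕ) :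
    dv θ a (n.prod fun i k => b i ^ k) = ∑ i ∈ n.support, (n i : ℤ) • dv θ a (b i) := by
  classical
  unfold Finsupp.prod
  induction n.support using Finset.induction with
  | empty => rw [Finset.prod_empty, dv_unit isUnit_one, Finset.sum_empty]
  | insert x s hx ih =>
    rw [Finset.prod_insert hx, Finset.sum_insert hx, dv_mul H
      (pow_ne_zero _ (b_ne H hb x))
      (Finset.prod_ne_zero_iff.2 fun i _ => pow_ne_zero _ (b_ne H hb i)), ih,
      dv_pow H (b_ne H hb x)]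

lemma dv_fprod_mem (H : Hy θ a) (hb : ∀ i : ι, ∃ k : ℕ, θ (b i) ∣ θ a ^ k) (n : ι →₀ ℕ) :
    dv θ a (n.prod fun i k => b i ^ k) ∈ MM θ a b := by
  rw [dv_fprod H hb]
  exact Submodule.sum_mem _ fun i _ => Submodule.smul_mem _ _ (Submodule.subset_span ⟨i, rfl⟩)

lemma MM_le (H : Hy θ a) (hb : ∀ i : ι, ∃ k : ℕ, θ (b i) ∣ θ a ^ k) : MM θ a b ≤ LL θ a := by
  unfold MM
  rw [Submodule.span_le]
  rintro _ ⟨i, rfl⟩
  refine mem_L_of H (b i) (b_ne H hb i) fun π hπ hd => Submodule.subset_span ⟨π, hπ, ?_, rfl⟩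
  obtain ⟨k, hk⟩ := hb i
  exact ⟨k, (map_dvd θ hd).trans hk⟩

lemma tors (H : Hy θ a) (hb : ∀ i : ι, ∃ k : ℕ, θ (b i) ∣ θ a ^ k)
    (h4 : ∀ π : A, Irreducible π → (∃ k : ℕ, θ π ∣ θ a ^ k) →
    ∃ (u : T) (m : ℕ) (n n' : ι →₀ ℕ), IsUnit u ∧ m ≠ 0 ∧
      θ π ^ m * θ (n.prod fun i k => b i ^ k) = u * θ (n'.prod fun i k => b i ^ k))
    {x : VV θ a → ℤ} (hx : x ∈ LL θ a) : ∃ m : ℤ, m ≠ 0 ∧ m • x ∈ MM θ a b := by
  induction hx using Submodule.span_induction with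
  | mem x hx =>
    obtain ⟨π, hπ, hk, rfl⟩ := hx
    obtain ⟨u, m, n, n', hu, hm, he⟩ := h4 π hπ hk
    refine ⟨m, by exact_mod_cast hm, ?_⟩
    have h5 : (m : ℤ) • dv θ a π = dv θ a (n'.prod fun i k => b i ^ k) -
        dv θ a (n.prod fun i k => b i ^ k) := by
      funext v
      have h6 : oz (θ π ^ m * θ (n.prod fun i k => b i ^ k)) v.1 =
          oz (u * θ (n'.prod fun i k => b i ^ k)) v.1 := by rw [he]
      rw [oz_mul (pow_ne_zero _ (H.ne hπ.ne_zero)) (H.ne (prod_ne H hb n)),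
        oz_mul hu.ne_zero (H.ne (prod_ne H hb n')), oz_unit hu, oz_pow (H.ne hπ.ne_zero),
        zero_add] at h6
      simp only [Pi.smul_apply, Pi.sub_apply, dv, smul_eq_mul]
      rw [← h6]
      push_cast
      ring
    rw [h5]
    exact Submodule.sub_mem _ (dv_fprod_mem H hb n') (dv_fprod_mem H hb n)
  | zero => exact ⟨1, one_ne_zero, by rw [smul_zero]; exact Submodule.zero_mem _⟩
  | add x y _ _ ihx ihy =>
    obtain ⟨m, hm, h1⟩ := ihx
    obtain ⟨m', hm', h2⟩ := ihy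
    refine ⟨m * m', mul_ne_zero hm hm', ?_⟩
    rw [smul_add]
    refine Submodule.add_mem _ ?_ ?_
    · rw [mul_comm, mul_smul]
      exact Submodule.smul_mem _ _ h1
    · rw [mul_smul]
      exact Submodule.smul_mem _ _ h2
  | smul r x _ ih =>
    obtain ⟨m, hm, h1⟩ := ih
    refine ⟨m, hm, ?_⟩
    rw [smul_comm]
    exact Submodule.smul_mem _ _ h1

lemma oz_out (H : Hy θ a) (hb : ∀ i : ι, ∃ k : ℕ, θ (b i) ∣ θ a ^ k) (n : ι →₀ ℕ)
    {𝔮 : Ideal T} (h : ¬ (𝔮.IsPrime ∧ θ a ∈ 𝔮)) : oz (θ (n.prod fun i k => b i ^ k)) 𝔮 = 0 := by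
  by_contra h0
  have h1 := (oz_pos (H.ne (prod_ne H hb n))).1 (Nat.pos_of_ne_zero h0)
  have hq := h1.1
  have h2 := h1.2
  unfold Finsupp.prod at h2
  rw [map_prod] at h2
  obtain ⟨i, _, hi⟩ := (hq.prod_mem_iff).1 h2
  rw [map_pow] at hi
  have h3 := hq.mem_of_pow_mem _ hi
  obtain ⟨k, S, hS⟩ := hb i
  apply h
  refine ⟨hq, hq.mem_of_pow_mem k ?_⟩
  rw [hS]
  exact Ideal.mul_mem_right _ _ h3

lemma lin_indep (H : Hy θ a) (hb : ∀ i : ι, ∃ k : ℕ, θ (b i) ∣ θ a ^ k)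
    (h5 : ∀ (u : T) (n n' : ι →₀ ℕ), IsUnit u →
      θ (n.prod fun i k => b i ^ k) = u * θ (n'.prod fun i k => b i ^ k) → n = n') :
    LinearIndependent ℤ (fun i => dv θ a (b i)) := by
  classical
  rw [linearIndependent_iff]
  intro c hc
  set n : ι →₀ ℕ := c.mapRange Int.toNat rfl with hn
  set n' : ι →₀ ℕ := (-c).mapRange Int.toNat rfl with hn'
  have hsum : ∀ (e : ι →₀ ℕ), e.support ⊆ c.support →
      dv θ a (e.prod fun i k => b i ^ k) = ∑ i ∈ c.support, (e i : ℤ) • dv θ a (b i) := by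
    intro e he
    rw [dv_fprod H hb]
    refine Finset.sum_subset he fun i _ hi => ?_
    rw [Finsupp.notMem_support_iff.1 hi, Nat.cast_zero, zero_smul]
  have hs1 : n.support ⊆ c.support := Finsupp.support_mapRange
  have hs2 : n'.support ⊆ c.support := by
    refine Finsupp.support_mapRange.trans ?_
    rw [Finsupp.support_neg]
  have h1 : dv θ a (n.prod fun i k => b i ^ k) = dv θ a (n'.prod fun i k => b i ^ k) := by
    rw [hsum n hs1, hsum n' hs2, ← sub_eq_zero, ← Finset.sum_sub_distrib]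
    rw [Finsupp.linearCombination_apply, Finsupp.sum] at hc
    rw [← hc]
    refine Finset.sum_congr rfl fun i _ => ?_
    rw [← sub_smul]
    congr 1
    exact Int.toNat_sub_toNat_neg (c i)
  have hass : Associated (θ (n.prod fun i k => b i ^ k)) (θ (n'.prod fun i k => b i ^ k)) := by
    refine assoc_of_oz (H.ne (prod_ne H hb n)) (H.ne (prod_ne H hb n')) fun 𝔮 => ?_
    by_cases hq : 𝔮.IsPrime ∧ θ a ∈ 𝔮
    · have h2 := congrFun h1 ⟨𝔮, hq.1, hq.2⟩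
      simp only [dv] at h2
      exact_mod_cast h2
    · rw [oz_out H hb n hq, oz_out H hb n' hq]
  obtain ⟨u, hu⟩ := hass.symm
  have hnn : n = n' := h5 u n n' u.isUnit (by rw [← hu, mul_comm])
  ext i
  have h2 := DFunLike.congr_fun hnn i
  rw [hn, hn', Finsupp.mapRange_apply, Finsupp.mapRange_apply, Finsupp.neg_apply] at h2
  rw [Finsupp.coe_zero, Pi.zero_apply]
  omega

theorem rank_eq (H : Hy θ a) (hb : ∀ i : ι, ∃ k : ℕ, θ (b i) ∣ θ a ^ k)
    (h4 : ∀ π : A, Irreducible π → (∃ k : ℕ, θ π ∣ θ a ^ k) →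
    ∃ (u : T) (m : ℕ) (n n' : ι →₀ ℕ), IsUnit u ∧ m ≠ 0 ∧
      θ π ^ m * θ (n.prod fun i k => b i ^ k) = u * θ (n'.prod fun i k => b i ^ k))
    (h5 : ∀ (u : T) (n n' : ι →₀ ℕ), IsUnit u →
      θ (n.prod fun i k => b i ^ k) = u * θ (n'.prod fun i k => b i ^ k) → n = n') :
    Finite ι ∧ Module.rank ℤ (Additive (ClassGroup T)) + (Nat.card ι : Cardinal) =
      ({𝔮 : Ideal T | 𝔮.IsPrime ∧ θ a ∈ 𝔮}.ncard : Cardinal) := by
  classical
  have hfin := H.finV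
  have : Fintype (VV θ a) := Fintype.ofFinite _
  have hli := lin_indep H hb h5
  have hιfin : Finite ι := hli.finite
  refine ⟨hιfin, ?_⟩
  have h1 := LinearMap.rank_eq_of_surjective (ff_surj H)
  rw [ker_eq H, rank_fun'] at h1
  have hM : Module.rank ℤ (MM θ a b) = (Nat.card ι : Cardinal) := by
    unfold MM
    rw [rank_span hli, Cardinal.mk_range_eq _ hli.injective, Nat.cast_card]
  have hK : Module.rank ℤ (LL θ a) = Module.rank ℤ (MM θ a b) := by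
    have h2 := rank_quotient_add_rank_of_isDomain ((MM θ a b).submoduleOf (LL θ a))
    have h3 : Module.rank ℤ ((MM θ a b).submoduleOf (LL θ a)) = Module.rank ℤ (MM θ a b) :=
      (Submodule.submoduleOfEquivOfLe (MM_le H hb)).rank_eq
    have h6 : Module.rank ℤ ((LL θ a) ⧸ ((MM θ a b).submoduleOf (LL θ a))) = 0 := by
      rw [Module.rank_eq_zero_iff_isTorsion]
      intro x
      obtain ⟨y, rfl⟩ := Submodule.Quotient.mk_surjective _ x
      obtain ⟨m, hm, h7⟩ := tors H hb h4 y.2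
      refine ⟨⟨m, mem_nonZeroDivisors_iff_ne_zero.2 hm⟩, ?_⟩
      change m • (Submodule.Quotient.mk y : (LL θ a) ⧸ ((MM θ a b).submoduleOf (LL θ a))) = 0
      rw [← Submodule.Quotient.mk_smul, Submodule.Quotient.mk_eq_zero]
      exact h7
    rw [h6, zero_add, h3] at h2
    exact h2.symm
  rw [hK, hM] at h1
  have h2 : ({𝔮 : Ideal T | 𝔮.IsPrime ∧ θ a ∈ 𝔮}.ncard : Cardinal) = Fintype.card (VV θ a) := by
    have : ({𝔮 : Ideal T | 𝔮.IsPrime ∧ θ a ∈ 𝔮}).ncard = Fintype.card (VV θ a) := by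
      rw [← Nat.card_coe_set_eq]
      exact Nat.card_eq_fintype_card (α := VV θ a)
    rw [this]
  rw [h2, h1]

end basis

/-- Q: the rank of the class group, general form -/
theorem t_Q : Pool.Agent.Zk97.CB.StQ := by
  intro T A ι _ _ _ _ _ θ a b hinj ha0 h1 h2 h3 h4 h5
  exact rank_eq (θ := θ) (a := a) ⟨hinj, ha0, h1, h2⟩ h3 h4 h5

end Pool.Agent.Zk20.CBQ
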