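import Pool.Agent.Zk20.CB.E2

/-!
# The ring of the open curve `A ≠ 0`, and its units
-/

set_option autoImplicit false
set_option linter.all false

open Polynomial

namespace Pool.Agent.Zk20.CBE

open Pool.Agent.Zk97.CB

theorem main_E (M K : Type) [Field M] [Field K] [Algebra M K] (w : K) (A B : M[X][X]) (l : ℕ)
    (h : GP l A B) (hw : Transcendental M w)
    (hK : ∀ z : K, ∃ p q : M[X], aeval w q ≠ 0 ∧ z * aeval w q = aeval w p)
    (hirr : Irreducible (ff w A B)) (hfin : {p : MPt M | om (hm p.1 B A) ≠ 1}.Finite)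
    (T : Type) [CommRing T] [Algebra (AdjoinRoot (ff w A B)) T]
    [IsLocalization.Away (th w A B A) T] :
    IsDomain T ∧ IsPrincipalIdealRing T ∧
      Module.rank ℤ (VU (kk w A B T)) =
        ((om A + ∑ᶠ p : MPt M, (om (hm p.1 B A) - 1) : ℕ) : Cardinal) := by
  have hdom : IsDomain (AdjoinRoot (ff w A B)) := AdjoinRoot.isDomain_of_prime hirr.prime
  have hA := h.thA_ne hw hK
  have hI := fin_I h hfin
  refine ⟨dom_T hdom hA, pid_T h Pool.Agent.Zk52.CB.t_D hw hK hdom, ?_⟩
  rw [rank_T (T := T) h hw hK hdom, ← h.card_I hI, Nat.cast_card]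

end Pool.Agent.Zk20.CBE
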