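import Pool.Agent.Zk97.CB.GDefs
import Pool.Agent.Zk20.CB.E3

/-!
# The ring of the open curve `A ≠ 0`, and its units: statement E
-/

set_option autoImplicit false
set_option linter.all false

open Polynomial

namespace Pool.Agent.Zk20.CBE

open Pool.Agent.Zk97.CB

theorem t_E : StE := by
  intro M K _ _ _ w A B l h hw hK hirr hfin T _ _ _
  exact main_E M K w A B l h hw hK hirr hfin T

end Pool.Agent.Zk20.CBE
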