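import Mathlib

/-!
# The rank of a group of units modulo the constants
-/

set_option autoImplicit false
set_option linter.all false

namespace Pool.Agent.Zk20.CBE

open scoped Classical

section
variable {K T : Type} [Field K] [CommRing T]

/-- the group of the units modulo the constants -/
abbrev VU (κ : K →+* T) : Type :=
  Additive Tˣ ⧸ LinearMap.range (MonoidHom.toAdditive (Units.map (κ : K →* T))).toIntLinearMap

/-- the class of a unit -/
noncomputable def ph (κ : K →+* T) (x : T) : VU κ :=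
  if h : IsUnit x then Submodule.Quotient.mk (Additive.ofMul h.unit) else 0

variable {κ : K →+* T}

lemma ph_of {x : T} (hx : IsUnit x) : ph κ x = Submodule.Quotient.mk (Additive.ofMul hx.unit) := by
  unfold ph
  rw [dif_pos hx]

lemma ph_mul {x y : T} (hx : IsUnit x) (hy : IsUnit y) : ph κ (x * y) = ph κ x + ph κ y := by
  rw [ph_of hx, ph_of hy, ph_of (hx.mul hy), ← Submodule.Quotient.mk_add, ← ofMul_mul]
  congr 2
  exact Units.ext rfl

lemma ph_const {c : K} (hc : c ≠ 0) : ph κ (κ c) = 0 := by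
  have hu : IsUnit (κ c) := (isUnit_iff_ne_zero.2 hc).map κ
  rw [ph_of hu, Submodule.Quotient.mk_eq_zero]
  refine ⟨Additive.ofMul (Units.mk0 c hc), ?_⟩
  change Additive.ofMul (Units.map (κ : K →* T) (Units.mk0 c hc)) = _
  congr 1
  exact Units.ext rfl

lemma ph_zero {x : T} (hx : IsUnit x) (h : ph κ x = 0) : ∃ c : K, c ≠ 0 ∧ x = κ c := by
  rw [ph_of hx, Submodule.Quotient.mk_eq_zero] at h
  obtain ⟨a, ha⟩ := h
  refine ⟨((Additive.toMul a : Kˣ) : K), Units.ne_zero _, ?_⟩
  have h1 : Additive.ofMul (Units.map (κ : K →* T) (Additive.toMul a)) = Additive.ofMul hx.unit := ha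
  have h2 := Additive.ofMul.injective h1
  have h3 := congrArg (fun u : Tˣ => (u : T)) h2
  exact h3.symm

lemma ph_surj (v : VU κ) : ∃ x : T, IsUnit x ∧ ph κ x = v := by
  obtain ⟨a, rfl⟩ := Submodule.Quotient.mk_surjective _ v
  refine ⟨((Additive.toMul a : Tˣ) : T), (Additive.toMul a).isUnit, ?_⟩
  rw [ph_of (Additive.toMul a).isUnit]
  congr 1
  exact congrArg Additive.ofMul (Units.ext rfl)

lemma ph_one : ph κ 1 = 0 := by
  have h := ph_const (κ := κ) (one_ne_zero (α := K))
  rwa [map_one] at h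

lemma ph_pow {x : T} (hx : IsUnit x) (n : ℕ) : ph κ (x ^ n) = (n : ℤ) • ph κ x := by
  induction n with
  | zero => rw [pow_zero, ph_one, Nat.cast_zero, zero_smul]
  | succ n ih =>
    rw [pow_succ, ph_mul (hx.pow n) hx, ih, Nat.cast_succ, add_smul, one_smul]

lemma ph_eq {x y : T} (hx : IsUnit x) (hy : IsUnit y) (h : ph κ x = ph κ y) :
    ∃ c : K, c ≠ 0 ∧ x = κ c * y := by
  obtain ⟨y', hy'⟩ := hy.exists_right_inv
  have hu : IsUnit y' := IsUnit.of_mul_eq_one y (by rw [mul_comm]; exact hy')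
  have h1 : ph κ y + ph κ y' = 0 := by
    rw [← ph_mul hy hu, hy', ph_one]
  have h2 : ph κ (x * y') = 0 := by
    rw [ph_mul hx hu, h, h1]
  obtain ⟨c, hc, e⟩ := ph_zero (hx.mul hu) h2
  refine ⟨c, hc, ?_⟩
  rw [← e, mul_assoc, mul_comm y' y, hy', mul_one]

variable {ι : Type} {b : ι → T}

lemma ph_fprod (hb : ∀ i, IsUnit (b i)) (s : Finset ι) (e : ι → ℕ) :
    IsUnit (∏ i ∈ s, b i ^ e i) ∧ ph κ (∏ i ∈ s, b i ^ e i) = ∑ i ∈ s, (e i : ℤ) • ph κ (b i) := by
  induction s using Finset.induction_on with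
  | empty => rw [Finset.prod_empty, Finset.sum_empty]; exact ⟨isUnit_one, ph_one⟩
  | insert x s hx ih =>
    rw [Finset.prod_insert hx, Finset.sum_insert hx]
    refine ⟨((hb x).pow _).mul ih.1, ?_⟩
    rw [ph_mul ((hb x).pow _) ih.1, ih.2, ph_pow (hb x)]

theorem ph_indep (hb : ∀ i, IsUnit (b i))
    (hind : ∀ (n n' : ι →₀ ℕ) (c : K), c ≠ 0 →
      (n.prod fun i k => b i ^ k) = κ c * (n'.prod fun i k => b i ^ k) → n = n') :
    LinearIndependent ℤ (fun i => ph κ (b i)) := by
  rw [linearIndependent_iff]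
  intro c hc
  set n : ι →₀ ℕ := c.mapRange Int.toNat rfl with hn
  set n' : ι →₀ ℕ := (-c).mapRange Int.toNat rfl with hn'
  have hprod : ∀ (e : ι →₀ ℕ), e.support ⊆ c.support →
      (e.prod fun i k => b i ^ k) = ∏ i ∈ c.support, b i ^ e i := by
    intro e he
    unfold Finsupp.prod
    refine Finset.prod_subset he fun i _ hi => ?_
    rw [Finsupp.notMem_support_iff.1 hi]
    exact pow_zero _
  have hs1 : n.support ⊆ c.support := Finsupp.support_mapRange
  have hs2 : n'.support ⊆ c.support := by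
    refine Finsupp.support_mapRange.trans ?_
    rw [Finsupp.support_neg]
  have f1 := ph_fprod (κ := κ) hb c.support (fun i => n i)
  have f2 := ph_fprod (κ := κ) hb c.support (fun i => n' i)
  have h1 : ph κ (∏ i ∈ c.support, b i ^ n i) = ph κ (∏ i ∈ c.support, b i ^ n' i) := by
    rw [f1.2, f2.2, ← sub_eq_zero, ← Finset.sum_sub_distrib]
    rw [Finsupp.linearCombination_apply, Finsupp.sum] at hc
    rw [← hc]
    refine Finset.sum_congr rfl fun i _ => ?_
    rw [← sub_smul]
    congr 1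
    exact Int.toNat_sub_toNat_neg (c i)
  obtain ⟨d, hd, e⟩ := ph_eq f1.1 f2.1 h1
  have hnn : n = n' := hind n n' d hd (by rw [hprod n hs1, hprod n' hs2, e])
  ext i
  have h2 := DFunLike.congr_fun hnn i
  rw [hn, hn', Finsupp.mapRange_apply, Finsupp.mapRange_apply, Finsupp.neg_apply] at h2
  rw [Finsupp.coe_zero, Pi.zero_apply]
  omega

theorem ph_rank (hb : ∀ i, IsUnit (b i))
    (hind : ∀ (n n' : ι →₀ ℕ) (c : K), c ≠ 0 →
      (n.prod fun i k => b i ^ k) = κ c * (n'.prod fun i k => b i ^ k) → n = n')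
    (hspan : ∀ x : T, IsUnit x → ∃ m : ℤ, m ≠ 0 ∧
      m • ph κ x ∈ Submodule.span ℤ (Set.range fun i => ph κ (b i))) :
    Module.rank ℤ (VU κ) = Cardinal.mk ι := by
  have hli := ph_indep hb hind
  have h2 := rank_quotient_add_rank_of_isDomain (Submodule.span ℤ (Set.range fun i => ph κ (b i)))
  have h6 : Module.rank ℤ (VU κ ⧸ Submodule.span ℤ (Set.range fun i => ph κ (b i))) = 0 := by
    rw [Module.rank_eq_zero_iff_isTorsion]
    intro x
    obtain ⟨y, rfl⟩ := Submodule.Quotient.mk_surjective _ x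
    obtain ⟨z, hz, rfl⟩ := ph_surj y
    obtain ⟨m, hm, h7⟩ := hspan z hz
    refine ⟨⟨m, mem_nonZeroDivisors_iff_ne_zero.2 hm⟩, ?_⟩
    change m • (Submodule.Quotient.mk (ph κ z) :
      VU κ ⧸ Submodule.span ℤ (Set.range fun i => ph κ (b i))) = 0
    rw [← Submodule.Quotient.mk_smul, Submodule.Quotient.mk_eq_zero]
    exact h7
  rw [h6, zero_add, rank_span hli, Cardinal.mk_range_eq _ hli.injective] at h2
  exact h2.symm

end

end Pool.Agent.Zk20.CBE
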