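import Pool.Agent.Zk97.CB.P4
import Pool.Agent.Zk52.CB.D
import Pool.Agent.Zk20.CB.E1

/-!
# The units of the open curve `A ≠ 0`
-/

set_option autoImplicit false
set_option linter.all false

open Polynomial

namespace Pool.Agent.Zk20.CBE

open Pool.Agent.Zk97.CB

section rel
variable {M K : Type} [Field M] [Field K] [Algebra M K] {w : K} {A B : M[X][X]} {l : ℕ}

/-- equal up to a constant -/
def AK (w : K) (A B : M[X][X]) (x y : AdjoinRoot (ff w A B)) : Prop :=
  ∃ c : K, c ≠ 0 ∧ y = ct w A B c * x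

theorem ct_one : ct w A B 1 = 1 := by
  unfold ct
  rw [C_1, C_1, map_one]

theorem AK.refl (x : AdjoinRoot (ff w A B)) : AK w A B x x :=
  ⟨1, one_ne_zero, by rw [ct_one, one_mul]⟩

theorem AK.symm {x y : AdjoinRoot (ff w A B)} (h : AK w A B x y) : AK w A B y x := by
  obtain ⟨c, hc, rfl⟩ := h
  refine ⟨c⁻¹, inv_ne_zero hc, ?_⟩
  rw [← mul_assoc, ← ct_mul, inv_mul_cancel₀ hc, ct_one, one_mul]

theorem AK.trans {x y z : AdjoinRoot (ff w A B)} (h : AK w A B x y) (h' : AK w A B y z) :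
    AK w A B x z := by
  obtain ⟨c, hc, rfl⟩ := h
  obtain ⟨d, hd, rfl⟩ := h'
  exact ⟨d * c, mul_ne_zero hd hc, by rw [ct_mul, mul_assoc]⟩

theorem ct_pow (c : K) (n : ℕ) : ct w A B (c ^ n) = ct w A B c ^ n := by
  unfold ct
  rw [C_pow, C_pow, map_pow]

theorem AK.pow {x y : AdjoinRoot (ff w A B)} (h : AK w A B x y) (n : ℕ) :
    AK w A B (x ^ n) (y ^ n) := by
  obtain ⟨c, hc, rfl⟩ := h
  exact ⟨c ^ n, pow_ne_zero _ hc, by rw [mul_pow, ct_pow]⟩

theorem AK.ct {c : K} (hc : c ≠ 0) (x : AdjoinRoot (ff w A B)) :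
    AK w A B x (Pool.Agent.Zk97.CB.ct w A B c * x) := ⟨c, hc, rfl⟩

theorem unit_MXX {u : M[X][X]} (hu : IsUnit u) : ∃ m : M, m ≠ 0 ∧ u = C (C m) := by
  obtain ⟨r, hr, rfl⟩ := Polynomial.isUnit_iff.1 hu
  obtain ⟨m, hm, rfl⟩ := Polynomial.isUnit_iff.1 hr
  exact ⟨m, hm.ne_zero, rfl⟩

theorem AK_assoc {P Q : M[X][X]} (h : Associated P Q) : AK w A B (th w A B P) (th w A B Q) := by
  obtain ⟨u, rfl⟩ := h
  obtain ⟨m, hm, e⟩ := unit_MXX u.isUnit
  refine ⟨algebraMap M K m, (_root_.map_ne_zero _).2 hm, ?_⟩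
  rw [map_mul, e, th_CC, mul_comm]

theorem span' (h : GP l A B) (hw : Transcendental M w)
    (hK : ∀ z : K, ∃ p q : M[X], aeval w q ≠ 0 ∧ z * aeval w q = aeval w p)
    (π : M[X][X]) (hπ : Irreducible π) (hk : ∃ k : ℕ, th w A B π ∣ th w A B A ^ k) :
    ∃ (m : ℕ) (n n' : h.I →₀ ℕ), m ≠ 0 ∧
      AK w A B (th w A B (n'.prod fun i k => h.bb i ^ k))
        (th w A B π ^ m * th w A B (n.prod fun i k => h.bb i ^ k)) := by
  classical
  have hA0 := h.pen.A0
  have hgen := gen_mk π hπ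
  -- the case of a member of the family
  have case1 : mkI π hπ ∈ h.I → ∃ (m : ℕ) (n n' : h.I →₀ ℕ), m ≠ 0 ∧
      AK w A B (th w A B (n'.prod fun i k => h.bb i ^ k))
        (th w A B π ^ m * th w A B (n.prod fun i k => h.bb i ^ k)) := by
    intro hx
    refine ⟨1, 0, Finsupp.single ⟨_, hx⟩ 1, one_ne_zero, ?_⟩
    rw [Finsupp.prod_zero_index, map_one, mul_one, fprod_single, pow_one, pow_one]
    exact AK_assoc hgen
  by_cases hA : π ∣ A
  · exact case1 (Or.inl (hgen.dvd.trans hA))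
  obtain ⟨p, hp, h1⟩ := h.H3 hw hK π hπ hA hk
  obtain ⟨q, c, hc, rfl⟩ := exists_monic hp
  rw [hm_Cmul hA0 hc q.2.2.ne_zero] at h1
  have hu : IsUnit (C (C c) : M[X][X]) := isUnit_C.2 (isUnit_C.2 (isUnit_iff_ne_zero.2 hc))
  have h2 : π ∣ hm q.1 B A := hu.dvd_mul_left.1 h1
  by_cases hx : mkI π hπ = h.x0 q
  · obtain ⟨n, h3, h4⟩ := factor (hm q.1 B A) (hm_deg h.pen q.2.2.ne_zero).2
    obtain ⟨nA, h5, h6⟩ := factor A hA0
    set x := mkI π hπ with hxd
    have hnx : n x ≠ 0 := (h4 x).2 (hgen.dvd.trans h2)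
    obtain ⟨n', hn'⟩ := h.restrict (n.erase x) (by
      intro y hy
      have hyx : y ≠ x := by
        rintro rfl
        exact hy Finsupp.erase_same
      rw [Finsupp.erase_ne hyx] at hy
      exact Or.inr ⟨q, (h4 y).1 hy, by rw [← hx]; exact hyx⟩)
    obtain ⟨nA', hnA'⟩ := h.restrict nA (fun y hy => Or.inl ((h6 y).1 hy))
    have h7 : Associated (π ^ (n x) * (n'.prod fun i k => h.bb i ^ k)) (hm q.1 B A) := by
      have e : gen x ^ (n x) * ((n.erase x).prod fun x k => gen x ^ k) = n.prod fun x k => gen x ^ k := by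
        conv_rhs => rw [← Finsupp.single_add_erase x n]
        rw [fprod_add, fprod_single]
      rw [hn']
      refine Associated.trans ?_ h3.symm
      rw [← e]
      exact (hgen.symm.pow_pow).mul_right _
    have h8 : AK w A B (th w A B (hm q.1 B A))
        (th w A B ((q.1.natDegree • nA').prod fun i k => h.bb i ^ k)) := by
      rw [fprod_smul, hnA', map_pow, th_hm]
      exact (AK.ct (aeval_ne hw q.2.2.ne_zero) _).symm.trans ((AK_assoc h5).pow _)
    refine ⟨n x, n', q.1.natDegree • nA', hnx, ?_⟩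
    rw [← map_pow, ← map_mul]
    exact ((AK_assoc h7).trans h8).symm
  · exact case1 (Or.inr ⟨q, hgen.dvd.trans h2, hx⟩)

theorem indep' (h : GP l A B) (hw : Transcendental M w)
    (hK : ∀ z : K, ∃ p q : M[X], aeval w q ≠ 0 ∧ z * aeval w q = aeval w p)
    (n n' : h.I →₀ ℕ) (c : K) (hc0 : c ≠ 0)
    (he : th w A B (n.prod fun i k => h.bb i ^ k) =
      ct w A B c * th w A B (n'.prod fun i k => h.bb i ^ k)) : n = n' := by
  classical
  obtain ⟨p, q, hq, hpq⟩ := hK c
  have hq0 : q ≠ 0 := by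
    rintro rfl
    exact hq (map_zero _)
  have hp0 : p ≠ 0 := by
    rintro rfl
    rw [map_zero] at hpq
    exact (mul_ne_zero hc0 hq) hpq
  have hg0 : EuclideanDomain.gcd p q ≠ 0 := by
    intro h0
    exact hq0 (EuclideanDomain.gcd_eq_zero_iff.1 h0).2
  obtain ⟨p', hp'⟩ := EuclideanDomain.gcd_dvd_left p q
  obtain ⟨q', hq'⟩ := EuclideanDomain.gcd_dvd_right p q
  set g := EuclideanDomain.gcd p q with hg
  have hp'0 : p' ≠ 0 := by
    rintro rfl
    exact hp0 (by rw [hp', mul_zero])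
  have hq'0 : q' ≠ 0 := by
    rintro rfl
    exact hq0 (by rw [hq', mul_zero])
  have hcop : IsCoprime p' q' := by
    have e := EuclideanDomain.gcd_eq_gcd_ab p q
    refine ⟨EuclideanDomain.gcdA p q, EuclideanDomain.gcdB p q, ?_⟩
    apply mul_left_cancel₀ hg0
    rw [mul_one]
    calc _ = (g * p') * EuclideanDomain.gcdA p q + (g * q') * EuclideanDomain.gcdB p q := by ring
      _ = g := by rw [← hp', ← hq', ← e]
  have hc : c * aeval w q' = aeval w p' := by
    apply mul_left_cancel₀ (aeval_ne hw hg0)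
    rw [← map_mul, ← hp', ← hpq, hq', map_mul]
    ring
  have he' : ct w A B (aeval w q') * th w A B (n.prod fun i k => h.bb i ^ k) =
      ct w A B (aeval w p') * th w A B (n'.prod fun i k => h.bb i ^ k) := by
    rw [he, ← mul_assoc, ← ct_mul, mul_comm (aeval w q'), hc]
  have hu1 := h.unit_of hw hK hp'0 hq'0 hcop n he'
  have hu2 := h.unit_of hw hK hq'0 hp'0 hcop.symm n' he'.symm
  obtain ⟨a, ha, rfl⟩ := Polynomial.isUnit_iff.1 hu1
  obtain ⟨b, hb, rfl⟩ := Polynomial.isUnit_iff.1 hu2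
  have e := h.eq_lift hw hK he'
  rw [hm_C, hm_C, natDegree_C, natDegree_C, pow_zero, mul_one, mul_one] at e
  have ua : IsUnit (C (C a) : M[X][X]) := isUnit_C.2 (isUnit_C.2 ha)
  have ub : IsUnit (C (C b) : M[X][X]) := isUnit_C.2 (isUnit_C.2 hb)
  have ha1 : Associated (n.prod fun i k => h.bb i ^ k) (n'.prod fun i k => h.bb i ^ k) := by
    have e1 := associated_unit_mul_left (n.prod fun i k => h.bb i ^ k) _ ub
    have e2 := associated_unit_mul_left (n'.prod fun i k => h.bb i ^ k) _ ua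
    rw [e] at e1
    exact e1.symm.trans e2
  exact fprod_uniq h.bb_prime h.bb_inj _ n n' rfl ha1

end rel

section fin
variable {M : Type} [Field M] {A B : M[X][X]} {l : ℕ}

theorem fin_I (h : GP l A B) (hf : {p : MPt M | om (hm p.1 B A) ≠ 1}.Finite) : Finite h.I := by
  have h1 : h.I ⊆ cset A ∪ ⋃ p ∈ {p : MPt M | om (hm p.1 B A) ≠ 1}, cset (hm p.1 B A) := by
    rintro x (hx | ⟨p, hx, hne⟩)
    · exact Or.inl hx
    · right
      rw [Set.mem_iUnion₂]
      refine ⟨p, ?_, hx⟩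
      intro h2
      unfold om at h2
      obtain ⟨y, hy⟩ := Set.ncard_eq_one.1 h2
      have h3 : x ∈ cset (hm p.1 B A) := hx
      have h4 : h.x0 p ∈ cset (hm p.1 B A) := h.x0_dvd p
      rw [hy, Set.mem_singleton_iff] at h3 h4
      exact hne (h3.trans h4.symm)
  have h2 : (cset A ∪ ⋃ p ∈ {p : MPt M | om (hm p.1 B A) ≠ 1}, cset (hm p.1 B A)).Finite := by
    refine (cset_finite h.pen.A0).union (hf.biUnion fun p _ => ?_)
    exact cset_finite (hm_deg h.pen p.2.2.ne_zero).2
  exact (h2.subset h1).to_subtype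

end fin

section T
variable {M K : Type} [Field M] [Field K] [Algebra M K] {w : K} {A B : M[X][X]} {l : ℕ}
  {T : Type} [CommRing T] [Algebra (AdjoinRoot (ff w A B)) T]
  [IsLocalization.Away (th w A B A) T]

/-- the map to the open curve -/
noncomputable def tt (w : K) (A B : M[X][X]) (T : Type) [CommRing T]
    [Algebra (AdjoinRoot (ff w A B)) T] : M[X][X] →+* T :=
  (algebraMap (AdjoinRoot (ff w A B)) T).comp (th w A B)

/-- the constants -/
noncomputable def kk (w : K) (A B : M[X][X]) (T : Type) [CommRing T]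
    [Algebra (AdjoinRoot (ff w A B)) T] : K →+* T :=
  (algebraMap (AdjoinRoot (ff w A B)) T).comp ((AdjoinRoot.of (ff w A B)).comp C)

theorem kk_ct (c : K) : kk w A B T c = algebraMap (AdjoinRoot (ff w A B)) T (ct w A B c) := rfl

theorem inj_T (hdom : IsDomain (AdjoinRoot (ff w A B))) (hA : th w A B A ≠ 0) :
    Function.Injective (algebraMap (AdjoinRoot (ff w A B)) T) :=
  IsLocalization.injective T (powers_le_nonZeroDivisors_of_noZeroDivisors hA)

theorem dom_T (hdom : IsDomain (AdjoinRoot (ff w A B))) (hA : th w A B A ≠ 0) : IsDomain T :=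
  IsLocalization.isDomain_of_le_nonZeroDivisors T (M := Submonoid.powers (th w A B A))
    (powers_le_nonZeroDivisors_of_noZeroDivisors hA)

theorem unit_A : IsUnit (algebraMap (AdjoinRoot (ff w A B)) T (th w A B A)) :=
  IsLocalization.Away.algebraMap_isUnit (th w A B A)

/-- elements of `T` -/
theorem exp_T (h : GP l A B) (hw : Transcendental M w)
    (hK : ∀ z : K, ∃ p q : M[X], aeval w q ≠ 0 ∧ z * aeval w q = aeval w p) (z : T) :
    ∃ (c : K) (k : ℕ) (P : M[X][X]), c ≠ 0 ∧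
      kk w A B T c * tt w A B T A ^ k * z = tt w A B T P := by
  obtain ⟨n, s, hs⟩ := IsLocalization.Away.surj (th w A B A) z
  obtain ⟨D, k, P, hD, h1⟩ := h1_exp h.pen hw hK s
  refine ⟨aeval w D, k + n, P, aeval_ne hw hD, ?_⟩
  unfold tt
  rw [RingHom.comp_apply, RingHom.comp_apply, ← h1, map_mul, map_mul, map_pow, ← hs, kk_ct,
    pow_add]
  ring

theorem unit_k {c : K} (hc : c ≠ 0) : IsUnit (kk w A B T c) := (isUnit_iff_ne_zero.2 hc).map _

theorem pid_T (h : GP l A B) (hD : StD) (hw : Transcendental M w)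
    (hK : ∀ z : K, ∃ p q : M[X], aeval w q ≠ 0 ∧ z * aeval w q = aeval w p)
    (hdom : IsDomain (AdjoinRoot (ff w A B))) : IsPrincipalIdealRing T := by
  have hTd : IsDomain T := dom_T hdom (h.thA_ne hw hK)
  refine IsPrincipalIdealRing.of_prime fun 𝔓 hP => ?_
  by_cases h0 : 𝔓 = ⊥
  · rw [h0]
    exact ⟨0, by simp⟩
  set 𝔭 : Ideal (AdjoinRoot (ff w A B)) := 𝔓.comap (algebraMap _ T) with h𝔭
  have hp : 𝔭.IsPrime := Ideal.comap_isPrime _ _
  have hA : th w A B A ∉ 𝔭 := by
    intro h1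
    exact hP.ne_top (Ideal.eq_top_of_isUnit_mem _ h1 unit_A)
  have hp0 : 𝔭 ≠ ⊥ := by
    intro h1
    apply h0
    rw [eq_bot_iff]
    intro z hz
    obtain ⟨n, s, hs⟩ := IsLocalization.Away.surj (th w A B A) z
    have h2 : s ∈ 𝔭 := by
      rw [h𝔭, Ideal.mem_comap, ← hs]
      exact 𝔓.mul_mem_right _ hz
    rw [h1, Ideal.mem_bot] at h2
    rw [h2, map_zero] at hs
    rcases mul_eq_zero.1 hs with h3 | h3
    · exact h3
    · exact absurd h3 ((unit_A.pow n).ne_zero)
  obtain ⟨π, hπ⟩ := h.H2 hD hw hK hdom 𝔭 hp hp0 hA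
  refine ⟨tt w A B T π, ?_⟩
  apply le_antisymm
  · intro z hz
    obtain ⟨c, k, P, hc, he⟩ := exp_T h hw hK z
    have h2 : P ∈ 𝔭.comap (th w A B) := by
      rw [Ideal.mem_comap, h𝔭, Ideal.mem_comap]
      change tt w A B T P ∈ 𝔓
      rw [← he]
      exact 𝔓.mul_mem_left _ hz
    rw [hπ, Ideal.mem_span_singleton] at h2
    obtain ⟨Q, rfl⟩ := h2
    have hu : IsUnit (kk w A B T c * tt w A B T A ^ k) := (unit_k hc).mul (unit_A.pow k)
    rw [Submodule.mem_span_singleton]
    obtain ⟨v, hv⟩ := hu.exists_left_inv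
    refine ⟨v * tt w A B T Q, ?_⟩
    rw [smul_eq_mul]
    have e : z = v * (kk w A B T c * tt w A B T A ^ k * z) := by
      rw [← mul_assoc, hv, one_mul]
    rw [e, he, map_mul]
    ring
  · rw [Submodule.span_singleton_le_iff_mem]
    have h2 : π ∈ 𝔭.comap (th w A B) := by
      rw [hπ]
      exact Ideal.mem_span_singleton_self π
    exact h2

/-- a divisor of a power of `A` -/
theorem dvd_of_unit (hdom : IsDomain (AdjoinRoot (ff w A B))) (hA : th w A B A ≠ 0) {P : M[X][X]}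
    (hu : IsUnit (tt w A B T P)) : ∃ k : ℕ, th w A B P ∣ th w A B A ^ k := by
  obtain ⟨v, hv⟩ := hu.exists_right_inv
  obtain ⟨n, s, hs⟩ := IsLocalization.Away.surj (th w A B A) v
  refine ⟨n, s, ?_⟩
  apply inj_T (T := T) hdom hA
  rw [map_mul, ← hs, map_pow, ← mul_assoc]
  change _ = tt w A B T P * v * _
  rw [hv, one_mul]

theorem tors (h : GP l A B) (hw : Transcendental M w)
    (hK : ∀ z : K, ∃ p q : M[X], aeval w q ≠ 0 ∧ z * aeval w q = aeval w p)
    (hdom : IsDomain (AdjoinRoot (ff w A B))) (P : M[X][X]) : IsUnit (tt w A B T P) →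
    ∃ m : ℤ, m ≠ 0 ∧ m • ph (kk w A B T) (tt w A B T P) ∈
      Submodule.span ℤ (Set.range fun i : h.I => ph (kk w A B T) (tt w A B T (h.bb i))) := by
  classical
  have hTd : IsDomain T := dom_T hdom (h.thA_ne hw hK)
  have hbu : ∀ i : h.I, IsUnit (tt w A B T (h.bb i)) := by
    intro i
    obtain ⟨k, z, hz⟩ := h.b_dvd hw i
    have h1 : IsUnit (algebraMap _ T (th w A B (h.bb i) * z)) := by
      rw [← hz, map_pow]
      exact unit_A.pow k
    rw [map_mul] at h1
    exact isUnit_of_mul_isUnit_left h1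
  have hfp : ∀ n : h.I →₀ ℕ, IsUnit (tt w A B T (n.prod fun i k => h.bb i ^ k)) ∧
      ph (kk w A B T) (tt w A B T (n.prod fun i k => h.bb i ^ k)) ∈
        Submodule.span ℤ (Set.range fun i : h.I => ph (kk w A B T) (tt w A B T (h.bb i))) := by
    intro n
    have e : tt w A B T (n.prod fun i k => h.bb i ^ k) =
        ∏ i ∈ n.support, tt w A B T (h.bb i) ^ n i := by
      unfold Finsupp.prod
      rw [map_prod]
      exact Finset.prod_congr rfl fun i _ => map_pow _ _ _
    have f := ph_fprod (κ := kk w A B T) hbu n.support (fun i => n i)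
    rw [e]
    refine ⟨f.1, ?_⟩
    rw [f.2]
    exact Submodule.sum_mem _ fun i _ => Submodule.smul_mem _ _ (Submodule.subset_span ⟨i, rfl⟩)
  induction P using WfDvdMonoid.induction_on_irreducible with
  | zero =>
    intro hu
    rw [map_zero] at hu
    exact absurd rfl hu.ne_zero
  | unit u hu =>
    intro _
    obtain ⟨m, hm, rfl⟩ := unit_MXX hu
    refine ⟨1, one_ne_zero, ?_⟩
    have e : tt w A B T (C (C m)) = kk w A B T (algebraMap M K m) := by
      unfold tt
      rw [RingHom.comp_apply, th_CC, kk_ct]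
    rw [e, ph_const ((_root_.map_ne_zero _).2 hm), smul_zero]
    exact Submodule.zero_mem _
  | mul a π ha0 hπ ih =>
    intro hu
    rw [map_mul] at hu
    have hu1 := isUnit_of_mul_isUnit_left hu
    have hu2 := isUnit_of_mul_isUnit_right hu
    obtain ⟨m2, hm2, h2⟩ := ih hu2
    obtain ⟨m1, n, n', hm1, c, hc, he⟩ := span' h hw hK π hπ
      (dvd_of_unit hdom (h.thA_ne hw hK) hu1)
    have he' : tt w A B T π ^ m1 * tt w A B T (n.prod fun i k => h.bb i ^ k) =
        kk w A B T c * tt w A B T (n'.prod fun i k => h.bb i ^ k) := by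
      have := congrArg (algebraMap (AdjoinRoot (ff w A B)) T) he
      rw [map_mul, map_mul, map_pow] at this
      exact this
    have h3 := congrArg (ph (kk w A B T)) he'
    rw [ph_mul (hu1.pow m1) (hfp n).1, ph_mul (unit_k hc) (hfp n').1, ph_const hc, zero_add,
      ph_pow hu1] at h3
    have h4 : (m1 : ℤ) • ph (kk w A B T) (tt w A B T π) ∈
        Submodule.span ℤ (Set.range fun i : h.I => ph (kk w A B T) (tt w A B T (h.bb i))) := by
      rw [eq_sub_of_add_eq h3]
      exact Submodule.sub_mem _ (hfp n').2 (hfp n).2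
    refine ⟨(m1 : ℤ) * m2, mul_ne_zero (by exact_mod_cast hm1) hm2, ?_⟩
    rw [map_mul, ph_mul hu1 hu2, smul_add]
    refine Submodule.add_mem _ ?_ ?_
    · rw [mul_comm, mul_smul]
      exact Submodule.smul_mem _ _ h4
    · rw [mul_smul]
      exact Submodule.smul_mem _ _ h2

theorem rank_T (h : GP l A B) (hw : Transcendental M w)
    (hK : ∀ z : K, ∃ p q : M[X], aeval w q ≠ 0 ∧ z * aeval w q = aeval w p)
    (hdom : IsDomain (AdjoinRoot (ff w A B))) :
    Module.rank ℤ (VU (kk w A B T)) = Cardinal.mk h.I := by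
  classical
  have hbu : ∀ i : h.I, IsUnit (tt w A B T (h.bb i)) := by
    intro i
    obtain ⟨k, z, hz⟩ := h.b_dvd hw i
    have h1 : IsUnit (algebraMap _ T (th w A B (h.bb i) * z)) := by
      rw [← hz, map_pow]
      exact unit_A.pow k
    rw [map_mul] at h1
    exact isUnit_of_mul_isUnit_left h1
  refine ph_rank (b := fun i : h.I => tt w A B T (h.bb i)) hbu ?_ ?_
  · intro n n' c hc he
    apply indep' h hw hK n n' c hc
    apply inj_T (T := T) hdom (h.thA_ne hw hK)
    rw [map_mul, ← kk_ct]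
    have e : ∀ n : h.I →₀ ℕ, algebraMap (AdjoinRoot (ff w A B)) T
        (th w A B (n.prod fun i k => h.bb i ^ k)) =
        n.prod fun i k => tt w A B T (h.bb i) ^ k := by
      intro n
      unfold Finsupp.prod
      rw [map_prod, map_prod]
      refine Finset.prod_congr rfl fun i _ => ?_
      rw [map_pow, map_pow]
      rfl
    rw [e, e]
    exact he
  · intro x hx
    obtain ⟨c, k, P, hc, he⟩ := exp_T h hw hK x
    have hAu : IsUnit (tt w A B T A) := unit_A
    have hPu : IsUnit (tt w A B T P) := by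
      rw [← he]
      exact ((unit_k hc).mul (hAu.pow k)).mul hx
    obtain ⟨m1, hm1, h1⟩ := tors h hw hK hdom P hPu
    obtain ⟨m2, hm2, h2⟩ := tors h hw hK hdom A hAu
    have h3 := congrArg (ph (kk w A B T)) he
    rw [ph_mul ((unit_k hc).mul (hAu.pow k)) hx, ph_mul (unit_k hc) (hAu.pow k), ph_const hc,
      zero_add, ph_pow hAu] at h3
    refine ⟨m1 * m2, mul_ne_zero hm1 hm2, ?_⟩
    have h4 : ph (kk w A B T) x = ph (kk w A B T) (tt w A B T P) -
        (k : ℤ) • ph (kk w A B T) (tt w A B T A) := by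
      rw [← h3, add_sub_cancel_left]
    rw [h4, smul_sub]
    refine Submodule.sub_mem _ ?_ ?_
    · rw [mul_comm, mul_smul]
      exact Submodule.smul_mem _ _ h1
    · rw [mul_smul, smul_comm m2 (k : ℤ)]
      exact Submodule.smul_mem _ _ (Submodule.smul_mem _ _ h2)

end T

end Pool.Agent.Zk20.CBE
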