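import Pool.Agent.Zk20.CB.R3
import Pool.Agent.Zk97.CB.Stm

set_option autoImplicit false
set_option linter.unusedSectionVars false

/-! Module R, part 4: independence and the rank. -/

namespace Pool.Agent.Zk20.CB

open UniqueFactorizationMonoid

variable {T A : Type} [CommRing T] [IsDedekindDomain T] [CommRing A] [IsDomain A]
  [UniqueFactorizationMonoid A] {θ : A →+* T} {a : A}

/-- the minimal primes of `a` are generated by the irreducible factors of `a` -/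
lemma exists_gen (ha0 : a ≠ 0) (𝔭 : (Ideal.span {a}).minimalPrimes) :
    ∃ π : A, Irreducible π ∧ π ∣ a ∧ Ideal.span {π} = 𝔭.1 := by
  classical
  have hp : 𝔭.1.IsPrime := 𝔭.2.1.1
  have ham : a ∈ 𝔭.1 := (Ideal.span_singleton_le_iff_mem _).1 𝔭.2.1.2
  have h1 : (factors a).prod ∈ 𝔭.1 := by
    obtain ⟨u, hu⟩ := (factors_prod ha0).symm
    rw [← hu]
    exact Ideal.mul_mem_right _ _ ham
  obtain ⟨π, hπ, hm⟩ := (Ideal.IsPrime.multiset_prod_mem_iff_exists_mem hp _).1 h1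
  have hirr : Irreducible π := irreducible_of_factor π hπ
  have hd : π ∣ a := dvd_of_mem_factors hπ
  refine ⟨π, hirr, hd, ?_⟩
  have h2 : Ideal.span {π} ≤ 𝔭.1 := (Ideal.span_singleton_le_iff_mem _).2 hm
  have h3 : (Ideal.span {π}).IsPrime := by
    rw [Ideal.span_singleton_prime hirr.ne_zero]
    exact hirr.prime
  exact le_antisymm h2 (𝔭.2.2 ⟨h3, Ideal.span_singleton_le_span_singleton.2 hd⟩ h2)

/-- the chosen generator -/
noncomputable def gen (ha0 : a ≠ 0) (𝔭 : (Ideal.span {a}).minimalPrimes) : A :=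
  (exists_gen ha0 𝔭).choose

lemma gen_irr (ha0 : a ≠ 0) (𝔭 : (Ideal.span {a}).minimalPrimes) : Irreducible (gen ha0 𝔭) :=
  (exists_gen ha0 𝔭).choose_spec.1

lemma gen_dvd (ha0 : a ≠ 0) (𝔭 : (Ideal.span {a}).minimalPrimes) : gen ha0 𝔭 ∣ a :=
  (exists_gen ha0 𝔭).choose_spec.2.1

lemma gen_span (ha0 : a ≠ 0) (𝔭 : (Ideal.span {a}).minimalPrimes) :
    Ideal.span {gen ha0 𝔭} = 𝔭.1 :=
  (exists_gen ha0 𝔭).choose_spec.2.2

lemma gen_inj (ha0 : a ≠ 0) {𝔭 𝔮 : (Ideal.span {a}).minimalPrimes} {d : A} (hd : Irreducible d)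
    (h1 : d ∣ gen ha0 𝔭) (h2 : d ∣ gen ha0 𝔮) : 𝔭 = 𝔮 := by
  have h3 : Associated (gen ha0 𝔭) (gen ha0 𝔮) :=
    (hd.associated_of_dvd (gen_irr ha0 𝔭) h1).symm.trans
      (hd.associated_of_dvd (gen_irr ha0 𝔮) h2)
  apply Subtype.ext
  rw [← gen_span ha0 𝔭, ← gen_span ha0 𝔮]
  exact Ideal.span_singleton_eq_span_singleton.2 h3

/-- every irreducible factor of `a` generates a minimal prime -/
lemma exists_min (ha0 : a ≠ 0) {π : A} (hπ : Irreducible π) (hd : π ∣ a) :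
    ∃ 𝔭 : (Ideal.span {a}).minimalPrimes, Associated (gen ha0 𝔭) π := by
  have h3 : (Ideal.span {π}).IsPrime := by
    rw [Ideal.span_singleton_prime hπ.ne_zero]
    exact hπ.prime
  have hle : Ideal.span {a} ≤ Ideal.span {π} := Ideal.span_singleton_le_span_singleton.2 hd
  obtain ⟨𝔭, hmin, hle'⟩ := Ideal.exists_minimalPrimes_le hle
  refine ⟨⟨𝔭, hmin⟩, ?_⟩
  have h4 : Ideal.span {gen ha0 ⟨𝔭, hmin⟩} ≤ Ideal.span {π} := by
    rw [gen_span]; exact hle'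
  rw [Ideal.span_singleton_le_span_singleton] at h4
  exact (hπ.associated_of_dvd (gen_irr ha0 _) h4).symm

lemma LL_eq (H : Hy θ a) :
    LL θ a = Submodule.span ℤ (Set.range fun 𝔭 => dv θ a (gen H.a0 𝔭)) := by
  unfold LL
  congr 1
  ext n
  constructor
  · rintro ⟨π, hπ, hd, rfl⟩
    obtain ⟨𝔭, h𝔭⟩ := exists_min H.a0 hπ hd
    exact ⟨𝔭, dv_assoc H (gen_irr H.a0 𝔭).ne_zero h𝔭⟩
  · rintro ⟨𝔭, rfl⟩
    exact ⟨_, gen_irr H.a0 𝔭, gen_dvd H.a0 𝔭, rfl⟩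

lemma dvd_pow_aux (ha0 : a ≠ 0) (s : Finset (Ideal.span {a}).minimalPrimes)
    (e : (Ideal.span {a}).minimalPrimes → ℕ) :
    ∃ k, ∏ 𝔭 ∈ s, gen ha0 𝔭 ^ e 𝔭 ∣ a ^ k := by
  refine ⟨∑ 𝔭 ∈ s, e 𝔭, ?_⟩
  rw [← Finset.prod_pow_eq_pow_sum]
  exact Finset.prod_dvd_prod_of_dvd _ _ fun 𝔭 _ => pow_dvd_pow_of_dvd (gen_dvd ha0 𝔭) _

lemma dv_prod (H : Hy θ a) (s : Finset (Ideal.span {a}).minimalPrimes)
    (e : (Ideal.span {a}).minimalPrimes → ℕ) :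
    dv θ a (∏ 𝔭 ∈ s, gen H.a0 𝔭 ^ e 𝔭) = ∑ 𝔭 ∈ s, (e 𝔭 : ℤ) • dv θ a (gen H.a0 𝔭) := by
  classical
  induction s using Finset.induction with
  | empty => rw [Finset.prod_empty, dv_unit isUnit_one, Finset.sum_empty]
  | insert x s hx ih =>
    rw [Finset.prod_insert hx, Finset.sum_insert hx, dv_mul H
      (pow_ne_zero _ (gen_irr H.a0 x).ne_zero)
      (Finset.prod_ne_zero_iff.2 fun 𝔭 _ => pow_ne_zero _ (gen_irr H.a0 𝔭).ne_zero), ih,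
      dv_pow H (gen_irr H.a0 x).ne_zero]

lemma prime_dvd (ha0 : a ≠ 0) {s : Finset (Ideal.span {a}).minimalPrimes}
    {e : (Ideal.span {a}).minimalPrimes → ℕ} {d : A} (hd : Prime d)
    (h : d ∣ ∏ 𝔭 ∈ s, gen ha0 𝔭 ^ e 𝔭) : ∃ 𝔭, 0 < e 𝔭 ∧ d ∣ gen ha0 𝔭 := by
  obtain ⟨𝔭, _, h1⟩ := (hd.dvd_finsetProd_iff _).1 h
  refine ⟨𝔭, ?_, hd.dvd_of_dvd_pow h1⟩
  by_contra h0
  have : e 𝔭 = 0 := by omega
  rw [this, pow_zero] at h1
  exact hd.not_isUnit (isUnit_of_dvd_one h1)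

lemma lin_indep (H : Hy θ a) : LinearIndependent ℤ (fun 𝔭 => dv θ a (gen H.a0 𝔭)) := by
  classical
  rw [linearIndependent_iff]
  intro c hc
  set D₁ := ∏ 𝔭 ∈ c.support, gen H.a0 𝔭 ^ (c 𝔭).toNat with hD₁
  set D₂ := ∏ 𝔭 ∈ c.support, gen H.a0 𝔭 ^ (-c 𝔭).toNat with hD₂
  have hne : ∀ e : (Ideal.span {a}).minimalPrimes → ℕ,
      ∏ 𝔭 ∈ c.support, gen H.a0 𝔭 ^ e 𝔭 ≠ 0 := fun e =>
    Finset.prod_ne_zero_iff.2 fun 𝔭 _ => pow_ne_zero _ (gen_irr H.a0 𝔭).ne_zero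
  have h1 : dv θ a D₁ = dv θ a D₂ := by
    rw [hD₁, hD₂, dv_prod H c.support (fun 𝔭 => (c 𝔭).toNat),
      dv_prod H c.support (fun 𝔭 => (-c 𝔭).toNat), ← sub_eq_zero, ← Finset.sum_sub_distrib]
    rw [Finsupp.linearCombination_apply, Finsupp.sum] at hc
    rw [← hc]
    refine Finset.sum_congr rfl fun 𝔭 _ => ?_
    rw [← sub_smul, Int.toNat_sub_toNat_neg]
  have hk1 := dvd_pow_aux H.a0 c.support (fun 𝔭 => (c 𝔭).toNat)
  have hk2 := dvd_pow_aux H.a0 c.support (fun 𝔭 => (-c 𝔭).toNat)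
  have hrel : IsRelPrime D₁ D₂ := by
    rw [isRelPrime_iff_no_prime_factors (hne _)]
    intro d hd1 hd2 hd
    obtain ⟨𝔭, hp1, hp2⟩ := prime_dvd H.a0 hd hd1
    obtain ⟨𝔮, hq1, hq2⟩ := prime_dvd H.a0 hd hd2
    have := gen_inj H.a0 hd.irreducible hp2 hq2
    subst this
    omega
  have hout : ∀ (X : A), X ≠ 0 → (∃ k, X ∣ a ^ k) → ∀ 𝔮 : Ideal T, 𝔮.IsPrime → θ a ∉ 𝔮 →
      oz (θ X) 𝔮 = 0 := by
    rintro X hX ⟨k, S, hS⟩ 𝔮 hq ha
    refine oz_zero (H.ne hX) fun hm => ?_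
    apply ha
    have h2 : θ a ^ k ∈ 𝔮 := by
      rw [← map_pow, hS, map_mul]
      exact Ideal.mul_mem_right _ _ hm
    exact hq.mem_of_pow_mem _ h2
  have hass : Associated (θ D₁) (θ D₂) := by
    refine assoc_of_oz (H.ne (hne _)) (H.ne (hne _)) fun 𝔮 => ?_
    by_cases hq : 𝔮.IsPrime
    · by_cases ha : θ a ∈ 𝔮
      · have h2 := congrFun h1 ⟨𝔮, hq, ha⟩
        simp only [dv] at h2
        exact_mod_cast h2
      · rw [hout D₁ (hne _) hk1 𝔮 hq ha, hout D₂ (hne _) hk2 𝔮 hq ha]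
    · have h0 : ∀ X : A, X ≠ 0 → oz (θ X) 𝔮 = 0 := by
        intro X hX
        by_contra h0
        exact hq ((oz_pos (H.ne hX)).1 (Nat.pos_of_ne_zero h0)).1
      rw [h0 D₁ (hne _), h0 D₂ (hne _)]
  obtain ⟨u, hu⟩ := hass.symm
  have hun := H.h4 D₁ D₂ hk1 hk2 hrel ⟨u, u.isUnit, by rw [← hu, mul_comm]⟩
  ext 𝔭
  rw [Finsupp.coe_zero, Pi.zero_apply]
  by_contra hc0
  have hmem : 𝔭 ∈ c.support := Finsupp.mem_support_iff.2 hc0
  have hunit : ∀ e : (Ideal.span {a}).minimalPrimes → ℕ, 0 < e 𝔭 →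
      IsUnit (∏ 𝔭 ∈ c.support, gen H.a0 𝔭 ^ e 𝔭) → False := by
    intro e he h
    have h2 : gen H.a0 𝔭 ∣ ∏ 𝔭 ∈ c.support, gen H.a0 𝔭 ^ e 𝔭 :=
      (dvd_pow_self _ he.ne').trans (Finset.dvd_prod_of_mem _ hmem)
    exact (gen_irr H.a0 𝔭).not_isUnit (isUnit_of_dvd_unit h2 h)
  rcases lt_or_gt_of_ne hc0 with h | h
  · exact hunit (fun 𝔭 => (-c 𝔭).toNat) (by omega) hun.2
  · exact hunit (fun 𝔭 => (c 𝔭).toNat) (by omega) hun.1

theorem rank_eq (H : Hy θ a) : Module.rank ℤ (Additive (ClassGroup T)) +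
    ((Ideal.span {a}).minimalPrimes.ncard : Cardinal) =
      ({𝔮 : Ideal T | 𝔮.IsPrime ∧ θ a ∈ 𝔮}.ncard : Cardinal) := by
  classical
  have hfin := H.finV
  have : Fintype (VV θ a) := Fintype.ofFinite _
  have h1 := LinearMap.rank_eq_of_surjective (ff_surj H)
  rw [ker_eq H, LL_eq H, rank_span (lin_indep H), Cardinal.mk_range_eq _ (lin_indep H).injective,
    rank_fun'] at h1
  have h2 : ({𝔮 : Ideal T | 𝔮.IsPrime ∧ θ a ∈ 𝔮}.ncard : Cardinal) = Fintype.card (VV θ a) := by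
    have : ({𝔮 : Ideal T | 𝔮.IsPrime ∧ θ a ∈ 𝔮}).ncard = Fintype.card (VV θ a) := by
      rw [← Nat.card_coe_set_eq]
      exact Nat.card_eq_fintype_card (α := VV θ a)
    rw [this]
  have h3 : Set.Finite (Ideal.span {a}).minimalPrimes := by
    have h4 : Cardinal.mk (Ideal.span {a}).minimalPrimes < Cardinal.aleph0 := by
      have h5 : Cardinal.mk (Ideal.span {a}).minimalPrimes ≤ (Fintype.card (VV θ a) : Cardinal) := by
        rw [h1]; exact le_add_self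
      exact h5.trans_lt (Cardinal.natCast_lt_aleph0)
    exact Cardinal.lt_aleph0_iff_set_finite.1 h4
  rw [h2, Set.cast_ncard h3, h1]

theorem t_R : Pool.Agent.Zk97.CB.StR := by
  intro T A _ _ _ _ _ θ a hinj ha0 h1 h2 h3 h4
  exact rank_eq (θ := θ) (a := a) ⟨hinj, ha0, h1, h2, h3, h4⟩

end Pool.Agent.Zk20.CB
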