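import Mathlib

set_option autoImplicit false

/-! Module R, part 1: orders of ideals at primes, classes. -/

namespace Pool.Agent.Zk20.CB

open UniqueFactorizationMonoid

section Ord

variable {T : Type} [CommRing T] [IsDedekindDomain T]

open scoped Classical in
/-- the exponent of `𝔮` in the factorization of `I` -/
noncomputable def oI (I 𝔮 : Ideal T) : ℕ := (normalizedFactors I).count 𝔮

lemma oI_mul {I J : Ideal T} (hI : I ≠ ⊥) (hJ : J ≠ ⊥) (𝔮 : Ideal T) :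
    oI (I * J) 𝔮 = oI I 𝔮 + oI J 𝔮 := by
  unfold oI
  rw [normalizedFactors_mul hI hJ, Multiset.count_add]

lemma oI_top (𝔮 : Ideal T) : oI (⊤ : Ideal T) 𝔮 = 0 := by
  unfold oI
  rw [← Ideal.one_eq_top, normalizedFactors_one, Multiset.count_zero]

lemma oI_pos {I 𝔮 : Ideal T} (hI : I ≠ ⊥) : 0 < oI I 𝔮 ↔ 𝔮.IsPrime ∧ I ≤ 𝔮 := by
  unfold oI
  rw [Multiset.count_pos, Ideal.mem_normalizedFactors_iff hI]

lemma oI_zero {I 𝔮 : Ideal T} (hI : I ≠ ⊥) (h : ¬ I ≤ 𝔮) : oI I 𝔮 = 0 := by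
  by_contra h0
  exact h ((oI_pos hI).1 (Nat.pos_of_ne_zero h0)).2

lemma ideal_eq {I J : Ideal T} (hI : I ≠ ⊥) (hJ : J ≠ ⊥) (h : ∀ 𝔮, oI I 𝔮 = oI J 𝔮) : I = J := by
  have h1 : normalizedFactors I = normalizedFactors J := by
    classical
    ext 𝔮
    have := h 𝔮
    unfold oI at this
    convert this
  rw [← Ideal.prod_normalizedFactors_eq_self hI, ← Ideal.prod_normalizedFactors_eq_self hJ, h1]

/-- the exponent of `𝔮` in `z` -/
noncomputable def oz (z : T) (𝔮 : Ideal T) : ℕ := oI (Ideal.span {z}) 𝔮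

lemma span_ne {z : T} (hz : z ≠ 0) : Ideal.span {z} ≠ ⊥ := by
  rwa [Ne, Ideal.span_singleton_eq_bot]

lemma oz_mul {z w : T} (hz : z ≠ 0) (hw : w ≠ 0) (𝔮 : Ideal T) :
    oz (z * w) 𝔮 = oz z 𝔮 + oz w 𝔮 := by
  unfold oz
  rw [← Ideal.span_singleton_mul_span_singleton, oI_mul (span_ne hz) (span_ne hw)]

lemma oz_unit {u : T} (hu : IsUnit u) (𝔮 : Ideal T) : oz u 𝔮 = 0 := by
  unfold oz
  rw [Ideal.span_singleton_eq_top.2 hu, oI_top]

lemma oz_pow {z : T} (hz : z ≠ 0) (k : ℕ) (𝔮 : Ideal T) : oz (z ^ k) 𝔮 = k * oz z 𝔮 := by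
  induction k with
  | zero => rw [pow_zero, oz_unit isUnit_one, zero_mul]
  | succ k ih => rw [pow_succ, oz_mul (pow_ne_zero _ hz) hz, ih]; ring

lemma oz_pos {z : T} {𝔮 : Ideal T} (hz : z ≠ 0) : 0 < oz z 𝔮 ↔ 𝔮.IsPrime ∧ z ∈ 𝔮 := by
  unfold oz
  rw [oI_pos (span_ne hz), Ideal.span_singleton_le_iff_mem]

lemma oz_zero {z : T} {𝔮 : Ideal T} (hz : z ≠ 0) (h : z ∉ 𝔮) : oz z 𝔮 = 0 := by
  by_contra h0
  exact h ((oz_pos hz).1 (Nat.pos_of_ne_zero h0)).2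

lemma assoc_of_oz {z w : T} (hz : z ≠ 0) (hw : w ≠ 0) (h : ∀ 𝔮, oz z 𝔮 = oz w 𝔮) :
    Associated z w := by
  have := ideal_eq (span_ne hz) (span_ne hw) h
  exact Ideal.span_singleton_eq_span_singleton.1 this

lemma dvd_of_oz {z w : T} (hz : z ≠ 0) (hw : w ≠ 0) (h : ∀ 𝔮, oz z 𝔮 ≤ oz w 𝔮) : z ∣ w := by
  have h1 : normalizedFactors (Ideal.span {z}) ≤ normalizedFactors (Ideal.span {w}) := by
    classical
    rw [Multiset.le_iff_count]
    intro 𝔮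
    have := h 𝔮
    unfold oz oI at this
    convert this
  rw [← dvd_iff_normalizedFactors_le_normalizedFactors (span_ne hz) (span_ne hw),
    Ideal.dvd_iff_le, Ideal.span_singleton_le_span_singleton] at h1
  exact h1

/-- the class of a nonzero ideal -/
noncomputable def cl (I : Ideal T) : Additive (ClassGroup T) :=
  open scoped Classical in
  if h : I ≠ ⊥ then Additive.ofMul (ClassGroup.mk0 ⟨I, mem_nonZeroDivisors_iff_ne_zero.2 h⟩) else 0

lemma cl_of {I : Ideal T} (h : I ≠ ⊥) :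
    cl I = Additive.ofMul (ClassGroup.mk0 ⟨I, mem_nonZeroDivisors_iff_ne_zero.2 h⟩) := by
  unfold cl
  rw [dif_pos h]

lemma cl_mul {I J : Ideal T} (hI : I ≠ ⊥) (hJ : J ≠ ⊥) : cl (I * J) = cl I + cl J := by
  have hIJ : I * J ≠ ⊥ := mul_ne_zero hI hJ
  rw [cl_of hIJ, cl_of hI, cl_of hJ, ← ofMul_mul, ← map_mul]
  rfl

lemma cl_span {z : T} (hz : z ≠ 0) : cl (Ideal.span {z}) = 0 := by
  rw [cl_of (span_ne hz)]
  have h : ClassGroup.mk0 ⟨Ideal.span {z}, mem_nonZeroDivisors_iff_ne_zero.2 (span_ne hz)⟩ = 1 := by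
    rw [ClassGroup.mk0_eq_one_iff]
    exact ⟨⟨z, rfl⟩⟩
  rw [h]; rfl

lemma cl_top : cl (⊤ : Ideal T) = 0 := by
  rw [← Ideal.span_singleton_one]
  exact cl_span one_ne_zero

lemma cl_surj (c : Additive (ClassGroup T)) : ∃ I : Ideal T, I ≠ ⊥ ∧ cl I = c := by
  obtain ⟨⟨I, hI⟩, h⟩ := ClassGroup.mk0_surjective (Additive.toMul c)
  have hI' : I ≠ ⊥ := mem_nonZeroDivisors_iff_ne_zero.1 hI
  refine ⟨I, hI', ?_⟩
  rw [cl_of hI', h]; rfl

lemma cl_eq {I J : Ideal T} (hI : I ≠ ⊥) (hJ : J ≠ ⊥) (h : cl I = cl J) :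
    ∃ x y : T, x ≠ 0 ∧ y ≠ 0 ∧ ∀ 𝔮, oz x 𝔮 + oI I 𝔮 = oz y 𝔮 + oI J 𝔮 := by
  rw [cl_of hI, cl_of hJ] at h
  have h' := Additive.ofMul.injective h
  rw [ClassGroup.mk0_eq_mk0_iff] at h'
  obtain ⟨x, y, hx, hy, hxy⟩ := h'
  refine ⟨x, y, hx, hy, fun 𝔮 => ?_⟩
  unfold oz
  rw [← oI_mul (span_ne hx) hI, ← oI_mul (span_ne hy) hJ]
  exact congrArg (fun I => oI I 𝔮) hxy

lemma prod_ne_bot {m : Multiset (Ideal T)} (h : ∀ x ∈ m, x ≠ ⊥) : m.prod ≠ ⊥ := by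
  rw [Ne, ← Ideal.zero_eq_bot, Multiset.prod_eq_zero_iff]
  intro h0
  exact h 0 h0 rfl

/-- classes of products of members of a finite set of primes -/
lemma cl_prod {V : Type} [Fintype V] (e : V → Ideal T) (he : Function.Injective e)
    (h0 : ∀ v, e v ≠ ⊥) (m : Multiset (Ideal T)) (hm : ∀ x ∈ m, ∃ v, e v = x) :
    open scoped Classical in cl m.prod = ∑ v, ((m.count (e v) : ℕ) : ℤ) • cl (e v) := by
  classical
  induction m using Multiset.induction with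
  | empty => simp [cl_top]
  | cons x m ih =>
    have h1 := ih fun y hy => hm y (Multiset.mem_cons_of_mem hy)
    obtain ⟨v, hv⟩ := hm x (Multiset.mem_cons_self x m)
    have h2 : x ≠ ⊥ := hv ▸ h0 v
    have h3 : m.prod ≠ ⊥ := prod_ne_bot fun y hy => by
      obtain ⟨w, hw⟩ := hm y (Multiset.mem_cons_of_mem hy)
      exact hw ▸ h0 w
    rw [Multiset.prod_cons, cl_mul h2 h3, h1]
    simp only [Multiset.count_cons, Nat.cast_add, add_smul, Finset.sum_add_distrib]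
    rw [add_comm]
    congr 1
    rw [Finset.sum_eq_single v]
    · rw [if_pos hv, hv]; simp
    · intro w _ hw
      rw [if_neg, Nat.cast_zero, zero_smul]
      intro h
      exact hw (he (h.trans hv.symm))
    · intro h
      exact absurd (Finset.mem_univ v) h

end Ord

end Pool.Agent.Zk20.CB
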