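import Pool.Agent.Zk20.CB.R1

set_option autoImplicit false

/-! Module R, part 2: primes outside of `a`, surjectivity. -/

namespace Pool.Agent.Zk20.CB

open UniqueFactorizationMonoid

variable {T A : Type} [CommRing T] [IsDedekindDomain T] [CommRing A] [IsDomain A]
  [UniqueFactorizationMonoid A]

/-- the hypotheses -/
structure Hy (θ : A →+* T) (a : A) : Prop where
  inj : Function.Injective θ
  a0 : a ≠ 0
  h1 : ∀ z : T, ∃ (u : T) (k : ℕ) (P : A), IsUnit u ∧ u * θ a ^ k * z = θ P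
  h2 : ∀ 𝔭 : Ideal T, 𝔭.IsPrime → 𝔭 ≠ ⊥ → θ a ∉ 𝔭 → ∃ π : A, 𝔭.comap θ = Ideal.span {π}
  h3 : ∀ π : A, Irreducible π → ¬ π ∣ a → (∃ k : ℕ, θ π ∣ θ a ^ k) →
    ∃ (u : T) (k : ℕ), IsUnit u ∧ θ π = u * θ a ^ k
  h4 : ∀ D₁ D₂ : A, (∃ k : ℕ, D₁ ∣ a ^ k) → (∃ k : ℕ, D₂ ∣ a ^ k) → IsRelPrime D₁ D₂ →
    (∃ u : T, IsUnit u ∧ θ D₁ = u * θ D₂) → IsUnit D₁ ∧ IsUnit D₂

/-- the primes which contain `θ a` -/
abbrev VV (θ : A →+* T) (a : A) : Type := {𝔮 : Ideal T // 𝔮.IsPrime ∧ θ a ∈ 𝔮}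

variable {θ : A →+* T} {a : A}

namespace Hy

lemma ne (H : Hy θ a) {X : A} (hX : X ≠ 0) : θ X ≠ 0 := by
  intro h
  exact hX (H.inj (h.trans (map_zero θ).symm))

lemma ta (H : Hy θ a) : θ a ≠ 0 := H.ne H.a0

lemma finV (H : Hy θ a) : Finite (VV θ a) := by
  classical
  have h1 : Set.Finite {𝔮 : Ideal T | 𝔮.IsPrime ∧ θ a ∈ 𝔮} := by
    refine ((normalizedFactors (Ideal.span {θ a})).toFinset.finite_toSet).subset ?_
    intro 𝔮 h𝔮
    rw [Finset.mem_coe, Multiset.mem_toFinset, Ideal.mem_normalizedFactors_iff (span_ne H.ta),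
      Ideal.span_singleton_le_iff_mem]
    exact h𝔮
  exact h1.to_subtype

lemma V_ne (H : Hy θ a) (v : VV θ a) : v.1 ≠ ⊥ := by
  intro h
  have := v.2.2
  rw [h, Ideal.mem_bot] at this
  exact H.ta this

/-- primes outside -/
lemma out (H : Hy θ a) {𝔭 : Ideal T} (hp : 𝔭.IsPrime) (h0 : 𝔭 ≠ ⊥) (ha : θ a ∉ 𝔭) :
    ∃ π : A, Irreducible π ∧ 𝔭.comap θ = Ideal.span {π} ∧
      (∀ π' : A, Irreducible π' → θ π' ∈ 𝔭 → Associated π π') := by
  obtain ⟨π, hπ⟩ := H.h2 𝔭 hp h0 ha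
  have hprime : (𝔭.comap θ).IsPrime := hp.comap θ
  have hπ0 : π ≠ 0 := by
    rintro rfl
    obtain ⟨z, hz, hz0⟩ := Submodule.exists_mem_ne_zero_of_ne_bot h0
    obtain ⟨u, k, P, hu, hP⟩ := H.h1 z
    have h3 : P ∈ 𝔭.comap θ := by
      rw [Ideal.mem_comap, ← hP]
      exact 𝔭.mul_mem_left _ hz
    rw [hπ, Ideal.mem_span_singleton, zero_dvd_iff] at h3
    rw [h3, map_zero] at hP
    exact (mul_ne_zero (mul_ne_zero hu.ne_zero (pow_ne_zero _ H.ta)) hz0) hP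
  have hprime' : Prime π := by
    rw [hπ, Ideal.span_singleton_prime hπ0] at hprime
    exact hprime
  refine ⟨π, hprime'.irreducible, hπ, fun π' hπ' hm => ?_⟩
  have h4 : π' ∈ 𝔭.comap θ := hm
  rw [hπ, Ideal.mem_span_singleton] at h4
  exact hprime'.irreducible.associated_of_dvd hπ' h4

lemma mem_of_comap (H : Hy θ a) {𝔭 𝔮 : Ideal T} (hq : 𝔮.IsPrime) (haq : θ a ∉ 𝔮)
    (h : 𝔭.comap θ ≤ 𝔮.comap θ) : 𝔭 ≤ 𝔮 := by
  intro z hz
  obtain ⟨u, k, P, hu, hP⟩ := H.h1 z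
  have h3 : P ∈ 𝔭.comap θ := by
    rw [Ideal.mem_comap, ← hP]
    exact 𝔭.mul_mem_left _ hz
  have h4 : θ P ∈ 𝔮 := h h3
  rw [← hP] at h4
  rcases hq.mem_or_mem h4 with h5 | h5
  · exfalso
    rcases hq.mem_or_mem h5 with h6 | h6
    · exact hq.ne_top (Ideal.eq_top_of_isUnit_mem _ h6 hu)
    · exact haq (hq.mem_of_pow_mem _ h6)
  · exact h5

lemma one (H : Hy θ a) {𝔭 : Ideal T} (hp : 𝔭.IsPrime) (h0 : 𝔭 ≠ ⊥) (ha : θ a ∉ 𝔭) {π : A}
    (hπ : Irreducible π) (hc : 𝔭.comap θ = Ideal.span {π}) : oz (θ π) 𝔭 = 1 := by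
  classical
  have hm : θ π ∈ 𝔭 := by
    have : π ∈ 𝔭.comap θ := by rw [hc]; exact Ideal.mem_span_singleton_self π
    exact this
  have h1 : 0 < oz (θ π) 𝔭 := (oz_pos (H.ne hπ.ne_zero)).2 ⟨hp, hm⟩
  by_contra hne
  have h2 : 2 ≤ oz (θ π) 𝔭 := by omega
  have h3 : Ideal.span {θ π} ≤ 𝔭 ^ 2 := by
    unfold oz oI at h2
    rw [Multiset.le_count_iff_replicate_le] at h2
    have h4 := Multiset.prod_dvd_prod_of_le h2
    rw [Multiset.prod_replicate, Ideal.prod_normalizedFactors_eq_self (span_ne (H.ne hπ.ne_zero)),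
      Ideal.dvd_iff_le] at h4
    exact h4
  obtain ⟨z, hz, hz2⟩ := Ideal.exists_mem_pow_notMem_pow_succ 𝔭 h0 hp.ne_top 1
  rw [pow_one] at hz
  obtain ⟨u, k, P, hu, hP⟩ := H.h1 z
  have h5 : P ∈ 𝔭.comap θ := by
    rw [Ideal.mem_comap, ← hP]
    exact 𝔭.mul_mem_left _ hz
  rw [hc, Ideal.mem_span_singleton] at h5
  obtain ⟨S, rfl⟩ := h5
  have h6 : u * θ a ^ k * z ∈ 𝔭 ^ 2 := by
    rw [hP, map_mul]
    exact Ideal.mul_mem_right _ _ ((Ideal.span_singleton_le_iff_mem _).1 h3)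
  rcases Ideal.IsPrime.mul_mem_pow 𝔭 h6 with h7 | h7
  · rcases hp.mem_or_mem h7 with h8 | h8
    · exact hp.ne_top (Ideal.eq_top_of_isUnit_mem _ h8 hu)
    · exact ha (hp.mem_of_pow_mem _ h8)
  · exact hz2 h7

lemma other (H : Hy θ a) {𝔭 : Ideal T} (hp : 𝔭.IsPrime) (h0 : 𝔭 ≠ ⊥) {π : A}
    (hπ : Irreducible π) (hc : 𝔭.comap θ = Ideal.span {π}) {𝔮 : Ideal T} (hq : 𝔮.IsPrime)
    (haq : θ a ∉ 𝔮) (hm : θ π ∈ 𝔮) : 𝔮 = 𝔭 := by
  have h1 : 𝔭 ≤ 𝔮 := by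
    apply H.mem_of_comap hq haq
    rw [hc, Ideal.span_singleton_le_iff_mem]
    exact hm
  exact ((hp.isMaximal h0).eq_of_le hq.ne_top h1).symm

end Hy

/-- the class map -/
noncomputable def ff (θ : A →+* T) (a : A) [Fintype (VV θ a)] :
    (VV θ a → ℤ) →ₗ[ℤ] Additive (ClassGroup T) :=
  Fintype.linearCombination ℤ (fun v : VV θ a => cl v.1)

lemma ff_apply [Fintype (VV θ a)] (n : VV θ a → ℤ) : ff θ a n = ∑ v, n v • cl v.1 := by
  unfold ff
  rw [Fintype.linearCombination_apply]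

lemma cl_prime_mem (H : Hy θ a) [Fintype (VV θ a)] {𝔭 : Ideal T} (hp : 𝔭.IsPrime) (h0 : 𝔭 ≠ ⊥) :
    cl 𝔭 ∈ LinearMap.range (ff θ a) := by
  classical
  by_cases ha : θ a ∈ 𝔭
  · refine ⟨Pi.single ⟨𝔭, hp, ha⟩ 1, ?_⟩
    rw [ff_apply, Finset.sum_eq_single ⟨𝔭, hp, ha⟩]
    · simp
    · intro w _ hw
      rw [Pi.single_eq_of_ne hw, zero_smul]
    · intro h; exact absurd (Finset.mem_univ _) h
  · obtain ⟨π, hπ, hc, _⟩ := H.out hp h0 ha
    have hne := span_ne (H.ne hπ.ne_zero)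
    have hm : 𝔭 ∈ normalizedFactors (Ideal.span {θ π}) := by
      have h1 := H.one hp h0 ha hπ hc
      unfold oz oI at h1
      rw [← Multiset.count_pos]
      convert Nat.lt_of_lt_of_le Nat.zero_lt_one h1.ge
    set m := (normalizedFactors (Ideal.span {θ π})).erase 𝔭 with hm'
    have h2 : 𝔭 ::ₘ m = normalizedFactors (Ideal.span {θ π}) := Multiset.cons_erase hm
    have h3 : ∀ x ∈ m, ∃ v : VV θ a, v.1 = x := by
      intro x hx
      have h4 : x ∈ normalizedFactors (Ideal.span {θ π}) := Multiset.mem_of_mem_erase hx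
      rw [Ideal.mem_normalizedFactors_iff hne, Ideal.span_singleton_le_iff_mem] at h4
      by_cases hax : θ a ∈ x
      · exact ⟨⟨x, h4.1, hax⟩, rfl⟩
      · exfalso
        have h5 := H.other hp h0 hπ hc h4.1 hax h4.2
        subst h5
        have h6 : 0 < m.count x := Multiset.count_pos.2 hx
        rw [hm', Multiset.count_erase_self] at h6
        have h7 := H.one hp h0 ha hπ hc
        unfold oz oI at h7
        have h8 : Multiset.count x (normalizedFactors (Ideal.span {θ π})) = 1 := by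
          convert h7
        omega
    have h4 := cl_prod (fun v : VV θ a => v.1) Subtype.val_injective (fun v => H.V_ne v) m h3
    have h5 : m.prod ≠ ⊥ := prod_ne_bot fun y hy => by
      obtain ⟨w, hw⟩ := h3 y hy
      exact hw ▸ H.V_ne w
    have h6 : cl 𝔭 + cl m.prod = 0 := by
      rw [← cl_mul h0 h5, ← Multiset.prod_cons, h2, Ideal.prod_normalizedFactors_eq_self hne,
        cl_span (H.ne hπ.ne_zero)]
    rw [add_eq_zero_iff_eq_neg] at h6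
    rw [h6]
    refine Submodule.neg_mem _ ⟨fun v => ((m.count v.1 : ℕ) : ℤ), ?_⟩
    rw [ff_apply, h4]

lemma ff_surj (H : Hy θ a) [Fintype (VV θ a)] : Function.Surjective (ff θ a) := by
  rw [← LinearMap.range_eq_top, Submodule.eq_top_iff']
  intro c
  obtain ⟨I, hI, rfl⟩ := cl_surj c
  have key : ∀ m : Multiset (Ideal T), (∀ x ∈ m, x.IsPrime ∧ x ≠ ⊥) →
      cl m.prod ∈ LinearMap.range (ff θ a) := by
    intro m
    induction m using Multiset.induction with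
    | empty =>
      intro _
      rw [Multiset.prod_zero, Ideal.one_eq_top, cl_top]
      exact Submodule.zero_mem _
    | cons x m ih =>
      intro h
      have h1 := h x (Multiset.mem_cons_self x m)
      have h2 : ∀ y ∈ m, y.IsPrime ∧ y ≠ ⊥ := fun y hy => h y (Multiset.mem_cons_of_mem hy)
      rw [Multiset.prod_cons, cl_mul h1.2 (prod_ne_bot fun y hy => (h2 y hy).2)]
      exact Submodule.add_mem _ (cl_prime_mem H h1.1 h1.2) (ih h2)
  rw [← Ideal.prod_normalizedFactors_eq_self hI]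
  refine key _ fun x hx => ?_
  have h1 := (Ideal.mem_normalizedFactors_iff hI).1 hx
  refine ⟨h1.1, fun h2 => ?_⟩
  rw [h2, le_bot_iff] at h1
  exact hI h1.2

end Pool.Agent.Zk20.CB
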