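import Pool.Agent.Zk20.CB.R2

set_option autoImplicit false
set_option linter.unusedSectionVars false

/-! Module R, part 3: the relations. -/

namespace Pool.Agent.Zk20.CB

open UniqueFactorizationMonoid

variable {T A : Type} [CommRing T] [IsDedekindDomain T] [CommRing A] [IsDomain A]
  [UniqueFactorizationMonoid A] {θ : A →+* T} {a : A}

/-- the orders at the primes which contain `θ a` -/
noncomputable def dv (θ : A →+* T) (a X : A) : VV θ a → ℤ := fun v => (oz (θ X) v.1 : ℤ)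

/-- the module generated by the divisors of the irreducible factors of `a` -/
def LL (θ : A →+* T) (a : A) : Submodule ℤ (VV θ a → ℤ) :=
  Submodule.span ℤ {n | ∃ π : A, Irreducible π ∧ π ∣ a ∧ n = dv θ a π}

lemma dv_mul (H : Hy θ a) {X Y : A} (hX : X ≠ 0) (hY : Y ≠ 0) :
    dv θ a (X * Y) = dv θ a X + dv θ a Y := by
  funext v
  simp only [dv, Pi.add_apply]
  rw [map_mul, oz_mul (H.ne hX) (H.ne hY)]
  push_cast
  rfl

lemma dv_unit {X : A} (hX : IsUnit X) : dv θ a X = 0 := by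
  funext v
  simp only [dv, Pi.zero_apply]
  rw [oz_unit (hX.map θ)]
  rfl

lemma dv_pow (H : Hy θ a) {X : A} (hX : X ≠ 0) (k : ℕ) : dv θ a (X ^ k) = (k : ℤ) • dv θ a X := by
  funext v
  simp only [dv, Pi.smul_apply]
  rw [map_pow, oz_pow (H.ne hX)]
  push_cast
  rfl

lemma dv_assoc (H : Hy θ a) {X Y : A} (hX : X ≠ 0) (h : Associated X Y) :
    dv θ a X = dv θ a Y := by
  obtain ⟨u, rfl⟩ := h
  rw [dv_mul H hX u.ne_zero, dv_unit u.isUnit, add_zero]

lemma mem_L_of (H : Hy θ a) (X : A) :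
    X ≠ 0 → (∀ π : A, Irreducible π → π ∣ X → dv θ a π ∈ LL θ a) → dv θ a X ∈ LL θ a := by
  refine induction_on_prime (P := fun X : A => X ≠ 0 →
    (∀ π : A, Irreducible π → π ∣ X → dv θ a π ∈ LL θ a) → dv θ a X ∈ LL θ a) X ?_ ?_ ?_
  · intro h; exact absurd rfl h
  · intro x hx _ _
    rw [dv_unit hx]
    exact Submodule.zero_mem _
  · intro x p hx hp ih _ h
    rw [dv_mul H hp.ne_zero hx]
    exact Submodule.add_mem _ (h p hp.irreducible (dvd_mul_right _ _))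
      (ih hx fun π hπ hd => h π hπ (hd.mul_left p))

lemma dv_a (H : Hy θ a) : dv θ a a ∈ LL θ a :=
  mem_L_of H a H.a0 fun π hπ hd => Submodule.subset_span ⟨π, hπ, hd, rfl⟩

/-- the same order outside of `θ a` -/
def SameOut (θ : A →+* T) (a : A) (X Y : A) : Prop :=
  ∀ 𝔭 : Ideal T, 𝔭.IsPrime → 𝔭 ≠ ⊥ → θ a ∉ 𝔭 → oz (θ X) 𝔭 = oz (θ Y) 𝔭

lemma half (H : Hy θ a) {X Y : A} (hX : X ≠ 0) (hY : Y ≠ 0) (hXY : IsRelPrime X Y)
    (h : SameOut θ a X Y) : dv θ a X ∈ LL θ a := by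
  refine mem_L_of H X hX fun π hπ hd => ?_
  by_cases hpa : π ∣ a
  · exact Submodule.subset_span ⟨π, hπ, hpa, rfl⟩
  have hin : ∀ 𝔭 : Ideal T, 𝔭.IsPrime → θ π ∈ 𝔭 → θ a ∈ 𝔭 := by
    intro 𝔭 hp hm
    by_contra ha
    have h0 : 𝔭 ≠ ⊥ := by
      rintro rfl
      rw [Ideal.mem_bot] at hm
      exact H.ne hπ.ne_zero hm
    have h1 : θ X ∈ 𝔭 := by
      obtain ⟨S, rfl⟩ := hd
      rw [map_mul]
      exact Ideal.mul_mem_right _ _ hm
    have h2 : 0 < oz (θ X) 𝔭 := (oz_pos (H.ne hX)).2 ⟨hp, h1⟩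
    rw [h 𝔭 hp h0 ha] at h2
    have h3 : θ Y ∈ 𝔭 := ((oz_pos (H.ne hY)).1 h2).2
    obtain ⟨π', _, hc', hass⟩ := H.out hp h0 ha
    have h4 : Y ∈ 𝔭.comap θ := h3
    rw [hc', Ideal.mem_span_singleton] at h4
    have h5 : π ∣ Y := (hass π hπ hm).symm.dvd.trans h4
    exact hπ.not_isUnit (hXY hd h5)
  have hdvd : ∃ k : ℕ, θ π ∣ θ a ^ k := by
    refine ⟨Multiset.card (normalizedFactors (Ideal.span {θ π})), ?_⟩
    refine dvd_of_oz (H.ne hπ.ne_zero) (pow_ne_zero _ H.ta) fun 𝔮 => ?_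
    rw [oz_pow H.ta]
    rcases Nat.eq_zero_or_pos (oz (θ π) 𝔮) with h0 | h0
    · rw [h0]; exact Nat.zero_le _
    · have h1 := (oz_pos (H.ne hπ.ne_zero)).1 h0
      have h2 : 0 < oz (θ a) 𝔮 := (oz_pos H.ta).2 ⟨h1.1, hin 𝔮 h1.1 h1.2⟩
      have h3 : oz (θ π) 𝔮 ≤ Multiset.card (normalizedFactors (Ideal.span {θ π})) := by
        unfold oz oI
        exact Multiset.count_le_card _ _
      nlinarith
  obtain ⟨u, k, hu, huk⟩ := H.h3 π hπ hpa hdvd
  have h1 : dv θ a π = (k : ℤ) • dv θ a a := by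
    funext v
    simp only [dv, Pi.smul_apply]
    rw [huk, oz_mul hu.ne_zero (pow_ne_zero _ H.ta), oz_unit hu, oz_pow H.ta]
    push_cast
    rw [zero_add]
    rfl
  rw [h1]
  exact Submodule.smul_mem _ _ (dv_a H)

lemma diff_mem (H : Hy θ a) {X Y : A} (hX : X ≠ 0) (hY : Y ≠ 0) (h : SameOut θ a X Y) :
    dv θ a X - dv θ a Y ∈ LL θ a := by
  obtain ⟨X', Y', c, hrel, hcX, hcY⟩ := exists_reduced_factors X hX Y
  have hc : c ≠ 0 := by rintro rfl; rw [zero_mul] at hcX; exact hX hcX.symm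
  have hX' : X' ≠ 0 := by rintro rfl; rw [mul_zero] at hcX; exact hX hcX.symm
  have hY' : Y' ≠ 0 := by rintro rfl; rw [mul_zero] at hcY; exact hY hcY.symm
  have h1 : SameOut θ a X' Y' := by
    intro 𝔭 hp h0 ha
    have h2 := h 𝔭 hp h0 ha
    rw [← hcX, ← hcY, map_mul, map_mul, oz_mul (H.ne hc) (H.ne hX'),
      oz_mul (H.ne hc) (H.ne hY')] at h2
    omega
  have h2 : SameOut θ a Y' X' := fun 𝔭 hp h0 ha => (h1 𝔭 hp h0 ha).symm
  rw [← hcX, ← hcY, dv_mul H hc hX', dv_mul H hc hY', add_sub_add_left_eq_sub]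
  exact Submodule.sub_mem _ (half H hX' hY' hrel h1) (half H hY' hX' hrel.symm h2)

/-- the multiset with the multiplicities `e` -/
noncomputable def mI [Fintype (VV θ a)] (e : VV θ a → ℕ) : Multiset (Ideal T) :=
  ∑ v, e v • ({v.1} : Multiset (Ideal T))

lemma mem_mI [Fintype (VV θ a)] {e : VV θ a → ℕ} {x : Ideal T} (hx : x ∈ mI e) :
    ∃ v : VV θ a, v.1 = x := by
  unfold mI at hx
  rw [Multiset.mem_sum] at hx
  obtain ⟨v, _, hv⟩ := hx
  have := Multiset.mem_of_mem_nsmul hv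
  rw [Multiset.mem_singleton] at this
  exact ⟨v, this.symm⟩

lemma count_mI [Fintype (VV θ a)] [DecidableEq (Ideal T)] (e : VV θ a → ℕ) (v : VV θ a) :
    (mI e).count v.1 = e v := by
  unfold mI
  rw [Multiset.count_sum', Finset.sum_eq_single v]
  · rw [Multiset.count_nsmul, Multiset.count_singleton_self, mul_one]
  · intro w _ hw
    rw [Multiset.count_nsmul, Multiset.count_singleton, if_neg, mul_zero]
    intro h
    exact hw (Subtype.ext h.symm)
  · intro h; exact absurd (Finset.mem_univ _) h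

lemma nf_mI (H : Hy θ a) [Fintype (VV θ a)] (e : VV θ a → ℕ) :
    normalizedFactors (mI e).prod = mI e := by
  refine normalizedFactors_prod_of_prime fun x hx => ?_
  obtain ⟨v, rfl⟩ := mem_mI hx
  exact Ideal.prime_of_isPrime (H.V_ne v) v.2.1

lemma prod_mI_ne (H : Hy θ a) [Fintype (VV θ a)] (e : VV θ a → ℕ) : (mI e).prod ≠ ⊥ :=
  prod_ne_bot fun y hy => by
    obtain ⟨w, hw⟩ := mem_mI hy
    exact hw ▸ H.V_ne w

lemma oI_mI (H : Hy θ a) [Fintype (VV θ a)] (e : VV θ a → ℕ) (v : VV θ a) :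
    oI (mI e).prod v.1 = e v := by
  classical
  unfold oI
  rw [nf_mI H]
  exact count_mI e v

lemma oI_mI_out (H : Hy θ a) [Fintype (VV θ a)] (e : VV θ a → ℕ) {𝔭 : Ideal T}
    (ha : θ a ∉ 𝔭) : oI (mI e).prod 𝔭 = 0 := by
  classical
  unfold oI
  rw [nf_mI H, Multiset.count_eq_zero]
  intro h
  obtain ⟨v, rfl⟩ := mem_mI h
  exact ha v.2.2

lemma ff_mI (H : Hy θ a) [Fintype (VV θ a)] (e : VV θ a → ℕ) :
    ff θ a (fun v => (e v : ℤ)) = cl (mI e).prod := by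
  classical
  rw [cl_prod (fun v : VV θ a => v.1) Subtype.val_injective (fun v => H.V_ne v) (mI e)
    (fun x hx => mem_mI hx), ff_apply]
  refine Finset.sum_congr rfl fun v _ => ?_
  congr 1
  have := count_mI e v
  have h2 : (Multiset.count v.1 (mI e) : ℕ) = e v := this
  exact_mod_cast h2.symm

lemma ker_le (H : Hy θ a) [Fintype (VV θ a)] {n : VV θ a → ℤ} (hn : ff θ a n = 0) :
    n ∈ LL θ a := by
  classical
  set e₁ : VV θ a → ℕ := fun v => (n v).toNat with he₁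
  set e₂ : VV θ a → ℕ := fun v => (-n v).toNat with he₂
  have hsub : n = (fun v => (e₁ v : ℤ)) - fun v => (e₂ v : ℤ) := by
    funext v
    simp only [Pi.sub_apply, he₁, he₂]
    exact (Int.toNat_sub_toNat_neg (n v)).symm
  have h1 : cl (mI e₁).prod = cl (mI e₂).prod := by
    rw [← ff_mI H, ← ff_mI H]
    have h2 : ff θ a ((fun v => (e₁ v : ℤ)) - fun v => (e₂ v : ℤ)) = 0 := by rw [← hsub]; exact hn
    rw [map_sub, sub_eq_zero] at h2
    exact h2
  obtain ⟨x, y, hx, hy, hxy⟩ := cl_eq (prod_mI_ne H e₁) (prod_mI_ne H e₂) h1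
  obtain ⟨u, k, X, hu, hX⟩ := H.h1 x
  obtain ⟨u', k', Y, hu', hY⟩ := H.h1 y
  have hθX : θ X ≠ 0 := by
    rw [← hX]; exact mul_ne_zero (mul_ne_zero hu.ne_zero (pow_ne_zero _ H.ta)) hx
  have hθY : θ Y ≠ 0 := by
    rw [← hY]; exact mul_ne_zero (mul_ne_zero hu'.ne_zero (pow_ne_zero _ H.ta)) hy
  have hX0 : X ≠ 0 := by rintro rfl; exact hθX (map_zero θ)
  have hY0 : Y ≠ 0 := by rintro rfl; exact hθY (map_zero θ)
  have oX : ∀ 𝔮, oz (θ X) 𝔮 = k * oz (θ a) 𝔮 + oz x 𝔮 := fun 𝔮 => by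
    rw [← hX, oz_mul (mul_ne_zero hu.ne_zero (pow_ne_zero _ H.ta)) hx,
      oz_mul hu.ne_zero (pow_ne_zero _ H.ta), oz_unit hu, oz_pow H.ta, zero_add]
  have oY : ∀ 𝔮, oz (θ Y) 𝔮 = k' * oz (θ a) 𝔮 + oz y 𝔮 := fun 𝔮 => by
    rw [← hY, oz_mul (mul_ne_zero hu'.ne_zero (pow_ne_zero _ H.ta)) hy,
      oz_mul hu'.ne_zero (pow_ne_zero _ H.ta), oz_unit hu', oz_pow H.ta, zero_add]
  have hsame : SameOut θ a Y X := by
    intro 𝔭 _ _ ha
    have h2 := hxy 𝔭
    rw [oI_mI_out H e₁ ha, oI_mI_out H e₂ ha] at h2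
    rw [oX, oY, oz_zero H.ta ha]
    omega
  have h3 := diff_mem H hY0 hX0 hsame
  have h4 : n = (dv θ a Y - dv θ a X) + ((k : ℤ) - k') • dv θ a a := by
    rw [hsub]
    funext v
    have h5 := hxy v.1
    rw [oI_mI H, oI_mI H] at h5
    have h6 := oX v.1
    have h7 := oY v.1
    simp only [Pi.sub_apply, Pi.add_apply, Pi.smul_apply, dv, smul_eq_mul]
    rw [h6, h7]
    push_cast
    have h8 : (oz x v.1 : ℤ) + e₁ v = oz y v.1 + e₂ v := by exact_mod_cast h5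
    linear_combination h8
  rw [h4]
  exact Submodule.add_mem _ h3 (Submodule.smul_mem _ _ (dv_a H))

lemma le_ker (H : Hy θ a) [Fintype (VV θ a)] : LL θ a ≤ LinearMap.ker (ff θ a) := by
  classical
  unfold LL
  rw [Submodule.span_le]
  rintro _ ⟨π, hπ, hd, rfl⟩
  rw [SetLike.mem_coe, LinearMap.mem_ker, ff_apply]
  have hne := span_ne (H.ne hπ.ne_zero)
  have h3 : ∀ x ∈ normalizedFactors (Ideal.span {θ π}), ∃ v : VV θ a, v.1 = x := by
    intro x hx
    rw [Ideal.mem_normalizedFactors_iff hne, Ideal.span_singleton_le_iff_mem] at hx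
    refine ⟨⟨x, hx.1, ?_⟩, rfl⟩
    obtain ⟨S, rfl⟩ := hd
    rw [map_mul]
    exact Ideal.mul_mem_right _ _ hx.2
  have h4 := cl_prod (fun v : VV θ a => v.1) Subtype.val_injective (fun v => H.V_ne v) _ h3
  rw [Ideal.prod_normalizedFactors_eq_self hne, cl_span (H.ne hπ.ne_zero)] at h4
  rw [h4]
  rfl

lemma ker_eq (H : Hy θ a) [Fintype (VV θ a)] : LinearMap.ker (ff θ a) = LL θ a :=
  le_antisymm (fun _ hn => ker_le H hn) (le_ker H)

end Pool.Agent.Zk20.CB
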